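import Mathlib

/-!
# Chow motives over a finite field through their formal properties: definitions
-/

open CategoryTheory MonoidalCategory Limits TensorProduct DirectSum

universe v u w

namespace Pool.Agent.Q227.AB

/-- The trace of an endomorphism of an object with a dual in a symmetric monoidal category (for
Chow motives: the usual trace, with values in `End(𝟙) = ℚ`). -/
def tr {C : Type u} [Category.{v} C] [MonoidalCategory C] [BraidedCategory C] {X : C}
    [HasRightDual X] (f : X ⟶ X) : 𝟙_ C ⟶ 𝟙_ C :=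
  η_ X (Xᘁ) ≫ (f ▷ Xᘁ) ≫ (β_ X (Xᘁ)).hom ≫ ε_ X (Xᘁ)

section

variable {C : Type u} [Category.{v} C]

/-- Powers of an endomorphism. -/
def pw {M : C} (f : M ⟶ M) : ℕ → (M ⟶ M)
  | 0 => 𝟙 M
  | n + 1 => pw f n ≫ f

variable [MonoidalCategory C]

/-- The tensor powers of an object. -/
@[reducible] def tpow (M : C) : ℕ → C
  | 0 => 𝟙_ C
  | n + 1 => tpow M n ⊗ M

/-- The tensor (smash) powers of a morphism `𝟙 ⟶ M`, that is, of a cycle class. -/
def smash {M : C} (f : 𝟙_ C ⟶ M) : ∀ n : ℕ, 𝟙_ C ⟶ tpow M n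
  | 0 => 𝟙 (𝟙_ C)
  | n + 1 => (λ_ (𝟙_ C)).inv ≫ (smash f n ⊗ₘ f)

/-- The permutation of the last two factors. -/
def swapR [BraidedCategory C] (Y M : C) : (Y ⊗ M) ⊗ M ⟶ (Y ⊗ M) ⊗ M :=
  (α_ Y M M).hom ≫ (Y ◁ (β_ M M).hom) ≫ (α_ Y M M).inv

/-- The cyclic permutation of the last `p + 1` factors of the `n + 1`-st tensor power, which moves
the last factor `p` places to the left. -/
def cyc [BraidedCategory C] (M : C) : ∀ n : ℕ, ℕ → (tpow M (n + 1) ⟶ tpow M (n + 1))
  | _, 0 => 𝟙 _
  | 0, _ + 1 => 𝟙 _
  | n + 1, p + 1 => swapR (tpow M n) M ≫ (cyc M n p ▷ M)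

/-- The sum over all permutations of the `n` factors of the `n`-th tensor power of `M`, with the
signs of the permutations if `s = -1` and without signs if `s = 1`. (Every permutation of `n + 1`
factors is, in a unique way, a permutation of the first `n` factors followed by a cyclic permutation
which moves the last factor `p ≤ n` places to the left, and the latter has sign `(-1) ^ p`.) -/
def permSum [BraidedCategory C] [Preadditive C] (s : ℤ) (M : C) :
    ∀ n : ℕ, tpow M n ⟶ tpow M n
  | 0 => 𝟙 _
  | n + 1 => (permSum s M n ▷ M) ≫ ∑ p ∈ Finset.range (n + 1), s ^ p • cyc M n p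

/-- The exterior power `Λ^n M` vanishes. -/
def ExtZero [BraidedCategory C] [Preadditive C] (M : C) (n : ℕ) : Prop := permSum (-1) M n = 0

/-- The symmetric power `Sym^n M` vanishes. -/
def SymZero [BraidedCategory C] [Preadditive C] (M : C) (n : ℕ) : Prop := permSum 1 M n = 0

/-- `f` is numerically trivial: all traces `tr (g ∘ f)` vanish. -/
def NumTriv [BraidedCategory C] [Preadditive C] {M : C} [HasRightDual M] (f : M ⟶ M) : Prop :=
  ∀ g : M ⟶ M, tr (f ≫ g) = 0

/-- The subspace of the numerically trivial elements of `Hom(𝟙, M)`. -/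
def numZero [Preadditive C] [Linear ℚ C] (M : C) : Submodule ℚ (𝟙_ C ⟶ M) where
  carrier := {f | ∀ g : M ⟶ 𝟙_ C, f ≫ g = 0}
  add_mem' := by
    intro a b ha hb g
    rw [Preadditive.add_comp, ha g, hb g, add_zero]
  zero_mem' := by
    intro g
    rw [zero_comp]
  smul_mem' := by
    intro c a ha g
    rw [Linear.smul_comp, ha g, smul_zero]

end

/-- The (algebraic) multiplicity of the eigenvalue `α` of the endomorphism `φ`. -/
noncomputable def mult {K : Type w} [Field K] {V : Type*} [AddCommGroup V] [Module K V]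
    (φ : Module.End K V) (α : K) : ℕ :=
  Module.finrank K (φ.maxGenEigenspace α)

/-- `α` is a `q`-Weil number of weight `i`: it is algebraic over `ℚ` and all complex roots of its
minimal polynomial over `ℚ` have absolute value `q ^ (i / 2)`. -/
def IsWeilNumber (q : ℕ) (i : ℤ) {K : Type w} [Field K] [CharZero K] (α : K) : Prop :=
  IsIntegral ℚ α ∧
    ∀ z : ℂ, Polynomial.aeval z (minpoly ℚ α) = 0 → ‖z‖ = (q : ℝ) ^ ((i : ℝ) / 2)

/-- The standard formal properties of the category `C` of Chow motives with rational coefficients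
over a finite field with `q` elements, besides being a `ℚ`-linear rigid symmetric monoidal
category: the `ℓ`-adic cohomology groups `H i M` (with coefficients in the field `K`, an algebraic
closure of `ℚ_ℓ`), their Künneth formula, the Frobenius endomorphism of every motive, the Lefschetz
trace formula and the theorem of Deligne on the weights. -/
structure FrobeniusCohomology (C : Type u) [Category.{v} C] [Preadditive C] [Linear ℚ C]
    [MonoidalCategory C] [SymmetricCategory C] [RightRigidCategory C] (K : Type w) [Field K]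
    [CharZero K] (q : ℕ) where
  /-- `End(𝟙) = ℚ`. -/
  unit_ne_zero : 𝟙 (𝟙_ C) ≠ 0
  end_unit : ∀ f : 𝟙_ C ⟶ 𝟙_ C, ∃ c : ℚ, f = c • 𝟙 (𝟙_ C)
  /-- The cohomology groups `H^i`, additive functors to vector spaces over `K`. -/
  H : ℤ → C ⥤ ModuleCat.{w} K
  additive : ∀ i, (H i).Additive
  finite : ∀ i M, Module.Finite K ((H i).obj M)
  bounded : ∀ M, {i : ℤ | ¬ Subsingleton ((H i).obj M)}.Finite
  /-- The Künneth formula. -/
  kunneth : ∀ M N n, Nonempty ((H n).obj (M ⊗ N) ≃ₗ[K]
    ⨁ i : ℤ, ((H i).obj M) ⊗[K] ((H (n - i)).obj N))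
  /-- The Frobenius endomorphism of a motive; it commutes with all morphisms. -/
  Frob : 𝟭 C ⟶ 𝟭 C
  frob_unit : Frob.app (𝟙_ C) = 𝟙 (𝟙_ C)
  frob_tensor : ∀ M N, Frob.app (M ⊗ N) = Frob.app M ⊗ₘ Frob.app N
  /-- The Lefschetz trace formula. -/
  lefschetz : ∀ (M : C) (f : M ⟶ M) (c : ℚ), tr f = c • 𝟙 (𝟙_ C) →
    (c : K) = ∑ᶠ i : ℤ, (Int.negOnePow i : ℤ) * LinearMap.trace K _ ((H i).map f).hom
  /-- The eigenvalues of Frobenius on `H^i` are Weil numbers of weight `i`. -/
  weights : ∀ (M : C) (i : ℤ) (α : K),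
    Module.End.HasEigenvalue ((H i).map (Frob.app M)).hom α → IsWeilNumber q i α

namespace FrobeniusCohomology

variable {C : Type u} [Category.{v} C] [Preadditive C] [Linear ℚ C]
    [MonoidalCategory C] [SymmetricCategory C] [RightRigidCategory C] {K : Type w} [Field K]
    [CharZero K] {q : ℕ}

/-- The sum of the Betti numbers of the motive `M`. -/
noncomputable def betti (R : FrobeniusCohomology C K q) (M : C) : ℕ :=
  ∑ᶠ i : ℤ, Module.finrank K ((R.H i).obj M)

end FrobeniusCohomology

end Pool.Agent.Q227.AB
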