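import Pool.Agent.Q227.AB.Ptr

/-!
# Traces of permutations composed with powers of an endomorphism
-/

open CategoryTheory MonoidalCategory Limits

universe v u w

namespace Pool.Agent.Q227.AB

section

variable {C : Type u} [Category.{v} C] [MonoidalCategory C] [SymmetricCategory C]

/-- Tensor powers of an endomorphism. -/
def fp {M : C} (f : M ⟶ M) : ∀ n : ℕ, tpow M n ⟶ tpow M n
  | 0 => 𝟙 _
  | n + 1 => (fp f n ▷ M) ≫ (tpow M n ◁ f)

lemma fp_succ {M : C} (f : M ⟶ M) (n : ℕ) : fp f (n + 1) = (fp f n ▷ M) ≫ (tpow M n ◁ f) := rfl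

lemma swapR_fp {Y M : C} (a : Y ⟶ Y) (f : M ⟶ M) :
    swapR Y M ≫ ((((a ▷ M) ≫ (Y ◁ f)) ▷ M) ≫ ((Y ⊗ M) ◁ f)) =
      ((((a ▷ M) ≫ (Y ◁ f)) ▷ M) ≫ ((Y ⊗ M) ◁ f)) ≫ swapR Y M := by
  have h1 : ((Y ◁ f) ▷ M) ≫ ((Y ⊗ M) ◁ f) ≫ swapR Y M =
      swapR Y M ≫ ((Y ◁ f) ▷ M) ≫ ((Y ⊗ M) ◁ f) := by
    unfold swapR
    calc ((Y ◁ f) ▷ M) ≫ ((Y ⊗ M) ◁ f) ≫ (α_ Y M M).hom ≫ (Y ◁ (β_ M M).hom) ≫ (α_ Y M M).inv
        = (α_ Y M M).hom ≫ (Y ◁ ((f ▷ M) ≫ (M ◁ f) ≫ (β_ M M).hom)) ≫ (α_ Y M M).inv := by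
          monoidal
      _ = (α_ Y M M).hom ≫ (Y ◁ ((β_ M M).hom ≫ (M ◁ f) ≫ (f ▷ M))) ≫ (α_ Y M M).inv := by
          rw [BraidedCategory.braiding_naturality_right,
            BraidedCategory.braiding_naturality_left_assoc]
      _ = (α_ Y M M).hom ≫ (Y ◁ ((β_ M M).hom ≫ (f ▷ M) ≫ (M ◁ f))) ≫ (α_ Y M M).inv := by
          rw [whisker_exchange]
      _ = _ := by monoidal
  rw [comp_whiskerRight]
  simp only [Category.assoc]
  rw [h1, reassoc_of% swapR_naturality a M]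

lemma cyc_fp {M : C} (f : M ⟶ M) : ∀ (n p : ℕ),
    cyc M n p ≫ fp f (n + 1) = fp f (n + 1) ≫ cyc M n p := by
  intro n
  induction n with
  | zero =>
    intro p
    cases p with
    | zero => rw [cyc_zero, Category.id_comp, Category.comp_id]
    | succ p =>
      simp only [cyc]
      rw [Category.id_comp, Category.comp_id]
  | succ n ih =>
    intro p
    cases p with
    | zero => rw [cyc_zero, Category.id_comp, Category.comp_id]
    | succ p =>
      have h1 : (cyc M n p ▷ M) ≫ fp f (n + 1 + 1) = fp f (n + 1 + 1) ≫ (cyc M n p ▷ M) := by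
        rw [fp_succ f (n + 1), ← Category.assoc, ← comp_whiskerRight, ih p, comp_whiskerRight]
        simp only [Category.assoc]
        rw [whisker_exchange]
      rw [cyc_succ, Category.assoc, h1, fp_succ f (n + 1), fp_succ f n]
      rw [← Category.assoc, swapR_fp (fp f n) f, Category.assoc]

end

section

variable {C : Type u} [Category.{v} C] [Preadditive C] [Linear ℚ C]
    [MonoidalCategory C] [SymmetricCategory C] [RightRigidCategory C] [MonoidalPreadditive C]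
    {K : Type w} [Field K] [CharZero K] {q : ℕ}

omit [Linear ℚ C] in
lemma tr_add' {X : C} (f g : X ⟶ X) : tr (f + g) = tr f + tr g := by
  unfold tr
  simp [MonoidalPreadditive.add_whiskerRight, Preadditive.comp_add, Preadditive.add_comp]

omit [Linear ℚ C] in
/-- The trace as an additive map. -/
def trHom (X : C) : (X ⟶ X) →+ (𝟙_ C ⟶ 𝟙_ C) :=
  AddMonoidHom.mk' tr tr_add'

namespace FrobeniusCohomology

variable (R : FrobeniusCohomology C K q)

/-- The trace as a rational number. -/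
noncomputable def t {X : C} (f : X ⟶ X) : ℚ := (R.end_unit (tr f)).choose

lemma tr_eq {X : C} (f : X ⟶ X) : tr f = R.t f • 𝟙 (𝟙_ C) := (R.end_unit (tr f)).choose_spec

include R in
lemma smul_inj {a b : ℚ} (h : a • 𝟙 (𝟙_ C) = b • 𝟙 (𝟙_ C)) : a = b := by
  have h1 : (a - b) • 𝟙 (𝟙_ C) = 0 := by rw [sub_smul, h, sub_self]
  rcases smul_eq_zero.1 h1 with h2 | h2
  · exact sub_eq_zero.1 h2
  · exact absurd h2 R.unit_ne_zero

lemma t_eq {X : C} {f : X ⟶ X} {c : ℚ} (h : tr f = c • 𝟙 (𝟙_ C)) : R.t f = c :=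
  R.smul_inj (by rw [← R.tr_eq, h])

lemma t_congr {X Y : C} {f : X ⟶ X} {g : Y ⟶ Y} (h : tr f = tr g) : R.t f = R.t g :=
  R.t_eq (by rw [h, R.tr_eq])

lemma t_add {X : C} (f g : X ⟶ X) : R.t (f + g) = R.t f + R.t g := by
  apply R.t_eq
  rw [tr_add', R.tr_eq f, R.tr_eq g, add_smul]

lemma t_zsmul {X : C} (z : ℤ) (f : X ⟶ X) : R.t (z • f) = z * R.t f := by
  apply R.t_eq
  have : tr (z • f) = z • tr f := (trHom X).map_zsmul z f
  rw [this, R.tr_eq f, mul_smul]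
  exact (Int.cast_smul_eq_zsmul ℚ z _).symm

lemma t_smul {X : C} (c : ℚ) (f : X ⟶ X) : R.t (c • f) = c * R.t f := by
  apply R.t_eq
  have : tr (c • f) = c • tr f := map_rat_smul (trHom X) c f
  rw [this, R.tr_eq f, mul_smul]

lemma t_sum {X : C} {ι : Type*} (s : Finset ι) (f : ι → (X ⟶ X)) :
    R.t (∑ i ∈ s, f i) = ∑ i ∈ s, R.t (f i) := by
  classical
  induction s using Finset.induction_on with
  | empty =>
    apply R.t_eq
    have : tr (0 : X ⟶ X) = 0 := (trHom X).map_zero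
    simp [this]
  | insert a s ha ih => rw [Finset.sum_insert ha, Finset.sum_insert ha, t_add, ih]

lemma t_comm {A B : C} (i : A ⟶ B) (p : B ⟶ A) : R.t (i ≫ p) = R.t (p ≫ i) :=
  R.t_congr (tr_comm i p)

lemma t_ptr {X M : C} (h : X ⊗ M ⟶ X ⊗ M) : R.t h = R.t (ptr h) :=
  R.t_congr (tr_tensor _ h)

lemma ptr_whisker {X M : C} (f : M ⟶ M) : ptr (X ◁ f) = R.t f • 𝟙 X := by
  rw [ptr_whiskerLeft, R.tr_eq f]
  have h : X ◁ (R.t f • 𝟙 (𝟙_ C)) = R.t f • 𝟙 (X ⊗ 𝟙_ C) := by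
    have : X ◁ (R.t f • 𝟙 (𝟙_ C)) = R.t f • (X ◁ 𝟙 (𝟙_ C)) :=
      map_rat_smul (tensorLeft X).mapAddHom (R.t f) (𝟙 (𝟙_ C))
    rw [this, whiskerLeft_id]
  rw [h]
  simp [monoidalComp]

/-- The traces of the sums over all permutations, composed with `f ⊗ ⋯ ⊗ f ⊗ g`. -/
noncomputable def c (s : ℤ) {M : C} (f g : M ⟶ M) (n : ℕ) : ℚ :=
  R.t (((fp f n ▷ M) ≫ (tpow M n ◁ g)) ≫ permSum s M (n + 1))

/-- The traces of the sums over all permutations, composed with `f ⊗ ⋯ ⊗ f`. -/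
noncomputable def a (s : ℤ) {M : C} (f : M ⟶ M) (n : ℕ) : ℚ := R.t (fp f n ≫ permSum s M n)

lemma a_succ (s : ℤ) {M : C} (f : M ⟶ M) (n : ℕ) : R.a s f (n + 1) = R.c s f f n := rfl

lemma term_zero (s : ℤ) {M : C} (f g : M ⟶ M) (n : ℕ) :
    R.t (((fp f n ≫ permSum s M n) ▷ M) ≫ (tpow M n ◁ g) ≫ cyc M n 0) = R.t g * R.a s f n := by
  rw [cyc_zero, Category.comp_id, R.t_ptr, ptr_comp_left, R.ptr_whisker]
  rw [Linear.comp_smul, Category.comp_id, R.t_smul]
  rfl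

lemma term_succ (s : ℤ) (hs : s * s = 1) {M : C} (f g : M ⟶ M) (n r : ℕ) (hr : r ≤ n) :
    R.t (((fp f (n + 1) ≫ permSum s M (n + 1)) ▷ M) ≫ (tpow M (n + 1) ◁ g) ≫
      cyc M (n + 1) (r + 1)) = s ^ r * R.c s f (g ≫ f) n := by
  rw [cyc_succ, R.t_ptr, ptr_comp_left, ← Category.assoc (tpow M (n + 1) ◁ g), ptr_comp_right,
    ptr_swapR, ← Category.assoc, R.t_comm, ← Category.assoc]
  rw [← Category.assoc (cyc M n r), cyc_fp, Category.assoc (fp f (n + 1)), cyc_permSum s hs M n r hr,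
    Preadditive.comp_zsmul, Preadditive.zsmul_comp, R.t_zsmul]
  push_cast
  congr 1
  rw [R.t_comm, fp_succ]
  unfold c
  congr 1
  rw [← Category.assoc, ← Category.assoc, whisker_exchange, whiskerLeft_comp]
  simp only [Category.assoc]

lemma c_rec (s : ℤ) (hs : s * s = 1) {M : C} (f g : M ⟶ M) (n : ℕ) :
    R.c s f g n = R.t g * R.a s f n +
      if n = 0 then 0 else s * n * R.c s f (g ≫ f) (n - 1) := by
  have h1 : ((fp f n ▷ M) ≫ (tpow M n ◁ g)) ≫ permSum s M (n + 1) =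
      ∑ p ∈ Finset.range (n + 1),
        s ^ p • (((fp f n ≫ permSum s M n) ▷ M) ≫ (tpow M n ◁ g) ≫ cyc M n p) := by
    rw [permSum_succ]
    have : ((fp f n ▷ M) ≫ (tpow M n ◁ g)) ≫ (permSum s M n ▷ M) ≫
        (∑ p ∈ Finset.range (n + 1), s ^ p • cyc M n p) =
        (((fp f n ≫ permSum s M n) ▷ M) ≫ (tpow M n ◁ g)) ≫
          (∑ p ∈ Finset.range (n + 1), s ^ p • cyc M n p) := by
      rw [comp_whiskerRight]
      simp only [Category.assoc]
      rw [whisker_exchange_assoc]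
    rw [this, Preadditive.comp_sum]
    apply Finset.sum_congr rfl
    intro p _
    rw [Preadditive.comp_zsmul, Category.assoc]
  unfold c
  rw [h1, R.t_sum, Finset.sum_range_succ', add_comm]
  congr 1
  · rw [R.t_zsmul, R.term_zero]
    simp
  · split_ifs with hn
    · subst hn
      simp
    · obtain ⟨m, rfl⟩ := Nat.exists_eq_succ_of_ne_zero hn
      have h2 : ∀ r ∈ Finset.range (m + 1), R.t (s ^ (r + 1) •
          (((fp f (m + 1) ≫ permSum s M (m + 1)) ▷ M) ≫ (tpow M (m + 1) ◁ g) ≫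
            cyc M (m + 1) (r + 1))) = s * R.c s f (g ≫ f) m := by
        intro r hr
        rw [R.t_zsmul, R.term_succ s hs f g m r (Nat.lt_succ_iff.1 (Finset.mem_range.1 hr))]
        push_cast
        have hs2 : (s : ℚ) * s = 1 := by exact_mod_cast hs
        have : (s : ℚ) ^ (r + 1) * ((s : ℚ) ^ r * R.c s f (g ≫ f) m) =
            ((s : ℚ) * s) ^ r * (s * R.c s f (g ≫ f) m) := by
          rw [mul_pow, pow_succ]
          ring
        rw [this, hs2, one_pow, one_mul]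
      rw [Finset.sum_congr rfl h2, Finset.sum_const, Finset.card_range, nsmul_eq_mul]
      show _ = (s : ℚ) * ((m + 1 : ℕ) : ℚ) * R.c s f (g ≫ f) m
      push_cast
      ring

end FrobeniusCohomology

end

end Pool.Agent.Q227.AB
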