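import Pool.Agent.Q227.AB.Kim

/-!
# Finite-dimensionality in the sense of Kimura
-/

open CategoryTheory MonoidalCategory Limits

universe v u w

namespace Pool.Agent.Q227.AB

section newton

variable {K : Type w} [Field K] {ι : Type} [Fintype ι] (α : ι → K)

/-- The elementary symmetric functions of a finite family. -/
noncomputable def el (k : ℕ) : K := MvPolynomial.aeval α (MvPolynomial.esymm ι K k)

/-- The power sums of a finite family. -/
noncomputable def ps (j : ℕ) : K := ∑ i, α i ^ j

lemma el_zero : el α 0 = 1 := by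
  unfold el
  rw [MvPolynomial.esymm_zero, map_one]

lemma el_big {k : ℕ} (h : Fintype.card ι < k) : el α k = 0 := by
  unfold el MvPolynomial.esymm
  rw [Finset.powersetCard_eq_empty.2 (by simpa using h)]
  simp

lemma newton (n : ℕ) : ∑ r ∈ Finset.range (n + 1), (-1) ^ r * ps α (1 + r) * el α (n - r) =
    (n + 1) * el α (n + 1) := by
  have h := congrArg (MvPolynomial.aeval α) (MvPolynomial.mul_esymm_eq_sum ι K (n + 1))
  simp only [map_mul, map_natCast, map_sum, map_pow, map_neg, map_one] at h
  have h1 : ((n + 1 : ℕ) : K) * el α (n + 1) = (-1) ^ (n + 1 + 1) *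
      ∑ a ∈ (Finset.HasAntidiagonal.antidiagonal (n + 1)).filter (fun a => a.1 < n + 1),
        (-1) ^ a.1 * el α a.1 * ps α a.2 := by
    unfold el ps
    rw [h]
    congr 1
    apply Finset.sum_congr rfl
    intro a _
    congr 1
    simp [MvPolynomial.psum]
  have h2 : ∑ a ∈ (Finset.HasAntidiagonal.antidiagonal (n + 1)).filter (fun a => a.1 < n + 1),
        (-1 : K) ^ a.1 * el α a.1 * ps α a.2 =
      ∑ r ∈ Finset.range (n + 1), (-1) ^ (n - r) * el α (n - r) * ps α (r + 1) := by
    refine Finset.sum_nbij' (fun a => a.2 - 1) (fun r => (n - r, r + 1)) ?_ ?_ ?_ ?_ ?_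
    · rintro ⟨a, b⟩ hab
      simp only [Finset.mem_filter, Finset.HasAntidiagonal.mem_antidiagonal] at hab
      simp only [Finset.mem_range]
      omega
    · intro r hr
      simp only [Finset.mem_range] at hr
      simp only [Finset.mem_filter, Finset.HasAntidiagonal.mem_antidiagonal]
      omega
    · rintro ⟨a, b⟩ hab
      simp only [Finset.mem_filter, Finset.HasAntidiagonal.mem_antidiagonal] at hab
      simp only [Prod.mk.injEq]
      omega
    · intro r hr
      simp
    · rintro ⟨a, b⟩ hab
      simp only [Finset.mem_filter, Finset.HasAntidiagonal.mem_antidiagonal] at hab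
      have e1 : n - (b - 1) = a := by omega
      have e2 : b - 1 + 1 = b := by omega
      simp only [e1, e2]
  rw [h2, Finset.mul_sum] at h1
  push_cast at h1
  rw [h1]
  apply Finset.sum_congr rfl
  intro r hr
  simp only [Finset.mem_range] at hr
  have e : (-1 : K) ^ (n + 1 + 1) * (-1) ^ (n - r) = (-1) ^ r := by
    rw [← pow_add, show n + 1 + 1 + (n - r) = r + 2 * (n - r + 1) by omega, pow_add, pow_mul]
    simp
  rw [add_comm 1 r]
  linear_combination (-(el α (n - r) * ps α (r + 1))) * e

end newton

section

variable {C : Type u} [Category.{v} C] [MonoidalCategory C] [SymmetricCategory C]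

lemma fp_id (M : C) (n : ℕ) : fp (𝟙 M) n = 𝟙 _ := by
  induction n with
  | zero => rfl
  | succ n ih => rw [fp_succ, ih]; simp

lemma fp_comp {M : C} (f g : M ⟶ M) (n : ℕ) : fp f n ≫ fp g n = fp (f ≫ g) n := by
  induction n with
  | zero => simp [fp]
  | succ n ih =>
    rw [fp_succ, fp_succ, fp_succ, ← ih]
    simp only [Category.assoc, comp_whiskerRight, whiskerLeft_comp]
    rw [whisker_exchange_assoc]

lemma pw_fp {M : C} (f : M ⟶ M) (n k : ℕ) : pw (fp f n) k = fp (pw f k) n := by
  induction k with
  | zero =>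
    simp only [pw]
    rw [fp_id]
  | succ k ih =>
    simp only [pw]
    rw [ih, fp_comp]

lemma pw_pw {M : C} (f : M ⟶ M) (k j : ℕ) : pw (pw f k) j = pw f (k * j) := by
  induction j with
  | zero => rfl
  | succ j ih =>
    show pw (pw f k) j ≫ pw f k = _
    rw [ih, Nat.mul_succ, pw_add]

end

section

variable {C : Type u} [Category.{v} C] [Preadditive C] [Linear ℚ C]
    [MonoidalCategory C] [SymmetricCategory C] [RightRigidCategory C] [MonoidalPreadditive C]
    {K : Type w} [Field K] [CharZero K] {q : ℕ}

namespace FrobeniusCohomology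

variable (R : FrobeniusCohomology C K q)

lemma a_zero (s : ℤ) {M : C} (f : M ⟶ M) : R.a s f 0 = 1 := by
  unfold a
  apply R.t_eq
  rw [one_smul]
  simp only [fp, permSum]
  rw [Category.comp_id]
  exact tr_id_unit _

lemma closed (s : ℤ) (hs : s * s = 1) {M : C} (f : M ⟶ M) {ι : Type} [Fintype ι] (α : ι → K)
    (hα : ∀ j, 1 ≤ j → (R.t (pw f j) : K) = -(s : K) * ps α j) : ∀ n : ℕ,
    ((R.a s f n : K) = n.factorial * (-(s : K)) ^ n * el α n) ∧
    ∀ j, 1 ≤ j → (R.c s f (pw f j) n : K) = n.factorial * (-(s : K)) ^ (n + 1) *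
      ∑ r ∈ Finset.range (n + 1), (-1) ^ r * ps α (j + r) * el α (n - r) := by
  intro n
  induction n with
  | zero =>
    refine ⟨?_, ?_⟩
    · rw [R.a_zero, el_zero]
      simp
    · intro j hj
      rw [R.c_rec s hs, if_pos rfl, add_zero, R.a_zero, mul_one, hα j hj]
      simp [el_zero]
  | succ n ih =>
    obtain ⟨_, ih2⟩ := ih
    have hA : (R.a s f (n + 1) : K) =
        (n + 1).factorial * (-(s : K)) ^ (n + 1) * el α (n + 1) := by
      have h1 : R.a s f (n + 1) = R.c s f (pw f 1) n := by
        rw [R.a_succ]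
        simp [pw]
      rw [h1, ih2 1 le_rfl, newton, Nat.factorial_succ]
      push_cast
      ring
    refine ⟨hA, ?_⟩
    intro j hj
    rw [R.c_rec s hs, if_neg (Nat.succ_ne_zero n)]
    have h2 : pw f j ≫ f = pw f (j + 1) := rfl
    rw [h2]
    have h3 : n + 1 - 1 = n := rfl
    rw [h3]
    push_cast
    rw [hα j hj, hA, ih2 (j + 1) (by omega), Finset.sum_range_succ' _ (n + 1)]
    have h4 : ∑ k ∈ Finset.range (n + 1),
        (-1 : K) ^ (k + 1) * ps α (j + (k + 1)) * el α (n + 1 - (k + 1)) =
        - ∑ r ∈ Finset.range (n + 1), (-1) ^ r * ps α (j + 1 + r) * el α (n - r) := by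
      rw [← Finset.sum_neg_distrib]
      apply Finset.sum_congr rfl
      intro k _
      rw [show j + (k + 1) = j + 1 + k by omega, show n + 1 - (k + 1) = n - k by omega, pow_succ]
      ring
    rw [h4]
    simp only [pow_zero, add_zero, Nat.sub_zero, Nat.factorial_succ]
    push_cast
    ring

end FrobeniusCohomology

end

section

variable {C : Type u} [Category.{v} C] [Abelian C] [Linear ℚ C]
    [MonoidalCategory C] [SymmetricCategory C] [RightRigidCategory C] [MonoidalPreadditive C]
    {K : Type w} [Field K] [CharZero K] [IsAlgClosed K] {q : ℕ}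

namespace FrobeniusCohomology

variable (R : FrobeniusCohomology C K q)

lemma fr_tpow (M : C) (n : ℕ) : R.fr (tpow M n) = fp (R.fr M) n := by
  induction n with
  | zero => exact R.frob_unit
  | succ n ih =>
    rw [fp_succ, ← ih]
    unfold fr
    have := R.frob_tensor (tpow M n) M
    rw [MonoidalCategory.tensorHom_def] at this
    exact this

lemma betti_eq_sum (M : C) : R.betti M = ∑ i ∈ R.degs M, ∑ x ∈ R.eigs M, R.m i M x := by
  unfold betti
  rw [finsum_eq_sum_of_support_subset (s := R.degs M)]
  · apply Finset.sum_congr rfl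
    intro i _
    exact R.finrank_eq i M _ (Finset.Subset.refl _)
  · intro i hi
    by_contra hc
    have := R.subsingleton_of_notMem hc
    exact hi Module.finrank_zero_of_subsingleton

/-- If the cohomology of `M` is in even (odd) degrees, then an exterior (symmetric) power of `M`
vanishes. -/
theorem permSum_eq_zero (hq : 1 < q) (s : ℤ) (hs : s * s = 1) (M : C)
    (hM : ∀ i ∈ R.degs M, (Int.negOnePow i : ℤ) = -s) : permSum s M (R.betti M + 1) = 0 := by
  classical
  set n := R.betti M + 1 with hn
  let mt : K → ℕ := fun x => ∑ i ∈ R.degs M, R.m i M x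
  let ι : Type w := Σ x : R.eigs M, Fin (mt x)
  let e : Fin (Fintype.card ι) ≃ ι := (Fintype.equivFin ι).symm
  -- the number of the eigenvalues
  have hcard : Fintype.card ι = R.betti M := by
    rw [Fintype.card_sigma, R.betti_eq_sum, Finset.sum_comm]
    simp only [Fintype.card_fin]
    exact Finset.sum_coe_sort (R.eigs M) mt
  have hchi : ∀ x, R.chi M x = -s * mt x := by
    intro x
    unfold chi
    simp only [mt]
    push_cast
    rw [Finset.mul_sum]
    exact Finset.sum_congr rfl fun i hi => by rw [hM i hi]
  -- the traces vanish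
  have htr : ∀ k : ℕ, R.a s (pw (R.fr M) k) n = 0 := by
    intro k
    let α : Fin (Fintype.card ι) → K := fun y => ((e y).1 : K) ^ k
    have hα : ∀ j, 1 ≤ j → (R.t (pw (pw (R.fr M) k) j) : K) = -(s : K) * ps α j := by
      intro j _
      rw [pw_pw, R.trace_pw M (R.eigs M) (Finset.Subset.refl _) (k * j) (R.tr_eq _)]
      have h1 : ps α j = ∑ x ∈ R.eigs M, (mt x : K) * x ^ (k * j) := by
        unfold ps
        simp only [α]
        rw [e.sum_comp (fun y : ι => (((y.1 : K)) ^ k) ^ j), Fintype.sum_sigma]
        simp only [Finset.sum_const, Finset.card_univ, Fintype.card_fin, nsmul_eq_mul]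
        rw [Finset.sum_coe_sort (R.eigs M) (fun x => (mt x : K) * (x ^ k) ^ j)]
        exact Finset.sum_congr rfl fun x _ => by rw [pow_mul]
      rw [h1, Finset.mul_sum]
      apply Finset.sum_congr rfl
      intro x _
      rw [hchi x]
      push_cast
      ring
    have h2 := (R.closed s hs (pw (R.fr M) k) α hα n).1
    rw [el_big α (by rw [Fintype.card_fin, hcard, hn]; exact Nat.lt_succ_self _), mul_zero] at h2
    exact_mod_cast h2
  -- the image of the symmetrizer
  obtain ⟨p, i, hpe, hi, hfac⟩ : ∃ (p : tpow M n ⟶ image (permSum s M n))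
      (i : image (permSum s M n) ⟶ tpow M n), Epi p ∧ Mono i ∧ p ≫ i = permSum s M n :=
    ⟨factorThruImage _, image.ι _, inferInstance, inferInstance, image.fac _⟩
  generalize image (permSum s M n) = I at p i hpe hi hfac
  have hsq : i ≫ p = (n.factorial : ℤ) • 𝟙 I := by
    have h := permSum_sq s hs M n
    rw [← hfac] at h
    rw [← cancel_mono i, ← cancel_epi p]
    rw [Preadditive.zsmul_comp, Preadditive.comp_zsmul, Category.id_comp, ← h]
    simp only [Category.assoc]
  have hI : ∀ k, tr (pw (R.fr I) k) = 0 := by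
    intro k
    have h1 : R.t (pw (R.fr I) k ≫ i ≫ p) = R.a s (pw (R.fr M) k) n := by
      rw [← Category.assoc, ← R.pw_fr_naturality i k, Category.assoc, R.t_comm, Category.assoc,
        hfac, R.fr_tpow, pw_fp]
      rfl
    rw [htr k, hsq, Preadditive.comp_zsmul, Category.comp_id, R.t_zsmul] at h1
    have h2 : R.t (pw (R.fr I) k) = 0 := by
      rcases mul_eq_zero.1 h1 with h3 | h3
      · exfalso
        have : (n.factorial : ℚ) ≠ 0 := by exact_mod_cast Nat.factorial_ne_zero n
        exact this (by exact_mod_cast h3)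
      · exact h3
    rw [R.tr_eq, h2, zero_smul]
  have h11 : R.betti I = 0 := by
    have h12 : ∀ j, Module.finrank K ((R.H j).obj I) = 0 := by
      intro j
      have := R.finrank_add_of_tr hq (A := I) (B := I) (D := I)
        (fun n => by rw [hI n, add_zero]) j
      omega
    unfold betti
    rw [finsum_congr h12, finsum_zero]
  have h12 : IsZero I := R.isZero_of_betti hq h11
  rw [← hfac, h12.eq_zero_of_tgt p, zero_comp]

end FrobeniusCohomology

end

end Pool.Agent.Q227.AB
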