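import Pool.Agent.Q227.AB.Kim2

/-!
# Every object is finite-dimensional in the sense of Kimura
-/

open CategoryTheory MonoidalCategory Limits

universe v u w

namespace Pool.Agent.Q227.AB

variable {C : Type u} [Category.{v} C] [Abelian C] [Linear ℚ C]
    [MonoidalCategory C] [SymmetricCategory C] [RightRigidCategory C] [MonoidalPreadditive C]
    {K : Type w} [Field K] [CharZero K] [IsAlgClosed K] {q : ℕ}

namespace FrobeniusCohomology

variable (R : FrobeniusCohomology C K q)

lemma split_idem {M : C} (e : M ⟶ M) (he : e ≫ e = e) :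
    ∃ (P : C) (p : M ⟶ P) (i : P ⟶ M), p ≫ i = e ∧ i ≫ p = 𝟙 P := by
  refine ⟨image e, factorThruImage e, image.ι e, image.fac e, ?_⟩
  rw [← cancel_mono (image.ι e), ← cancel_epi (factorThruImage e)]
  simp only [Category.assoc, Category.id_comp, image.fac]
  rw [image.fac_assoc, he]

lemma degs_of_split {M P : C} {e : M ⟶ M} {p : M ⟶ P} {i : P ⟶ M} (h1 : p ≫ i = e)
    (h2 : i ≫ p = 𝟙 P) (s : ℤ)
    (hH : ∀ j : ℤ, (Int.negOnePow j : ℤ) ≠ -s → (R.H j).map e = 0) :
    ∀ j ∈ R.degs P, (Int.negOnePow j : ℤ) = -s := by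
  intro j hj
  by_contra hc
  have h3 := hH j hc
  have h4 : ¬ Subsingleton ((R.H j).obj P) := (R.bounded P).mem_toFinset.1 hj
  apply h4
  have h5 : 𝟙 P = i ≫ e ≫ p := by
    rw [← h1, Category.assoc, h2, Category.comp_id, h2]
  have h6 : 𝟙 ((R.H j).obj P) = 0 := by
    rw [← CategoryTheory.Functor.map_id, h5, Functor.map_comp, Functor.map_comp, h3, zero_comp,
      comp_zero]
  exact ModuleCat.subsingleton_of_isZero ((IsZero.iff_id_eq_zero _).2 h6)

/-- Every object is finite-dimensional in the sense of Kimura. -/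
theorem kimura (hq : 1 < q) (M : C) : ∃ P N : C, Nonempty (M ≅ P ⊞ N) ∧
    ExtZero P (R.betti P + 1) ∧ SymZero N (R.betti N + 1) := by
  classical
  obtain ⟨π, -, hid, horth, hsum, -, hH⟩ := R.weight_decomposition hq
  obtain ⟨hfin, hsum⟩ := hsum M
  set S := hfin.toFinset with hS
  have hsum' : ∑ i ∈ S, π M i = 𝟙 M := by
    rw [← hsum, finsum_eq_sum_of_support_subset]
    intro i hi
    simp only [hS, Set.Finite.coe_toFinset]
    exact hi
  have hort : ∀ (A B : Finset ℤ), Disjoint A B →
      (∑ i ∈ A, π M i) ≫ (∑ i ∈ B, π M i) = 0 := by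
    intro A B hAB
    rw [Preadditive.sum_comp]
    apply Finset.sum_eq_zero
    intro i hi
    rw [Preadditive.comp_sum]
    apply Finset.sum_eq_zero
    intro j hj
    exact horth M i j (fun h => (Finset.disjoint_left.1 hAB hi) (h ▸ hj))
  have hidem : ∀ (A : Finset ℤ), (∑ i ∈ A, π M i) ≫ (∑ i ∈ A, π M i) = ∑ i ∈ A, π M i := by
    intro A
    rw [Preadditive.sum_comp]
    apply Finset.sum_congr rfl
    intro i hi
    rw [Preadditive.comp_sum, Finset.sum_eq_single_of_mem i hi
      (fun j _ hj => horth M i j hj.symm), hid]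
  set A := S.filter (fun i => (Int.negOnePow i : ℤ) = 1) with hA
  set B := S.filter (fun i => ¬ (Int.negOnePow i : ℤ) = 1) with hB
  have hdis : Disjoint A B := Finset.disjoint_filter_filter_not _ _ _
  have hadd : (∑ i ∈ A, π M i) + (∑ i ∈ B, π M i) = 𝟙 M := by
    rw [← hsum', hA, hB, Finset.sum_filter_add_sum_filter_not]
  have hmap : ∀ (A : Finset ℤ) (j : ℤ), j ∉ A → (R.H j).map (∑ i ∈ A, π M i) = 0 := by
    intro A j hj
    have := R.additive j
    rw [Functor.map_sum]
    apply Finset.sum_eq_zero
    intro i hi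
    exact hH M i j (fun h => hj (h ▸ hi))
  obtain ⟨P, p, i, hpi, hip⟩ := split_idem _ (hidem A)
  obtain ⟨N, p', i', hpi', hip'⟩ := split_idem _ (hidem B)
  have hepi : Epi p := by
    constructor
    intro Z x y hxy
    rw [← Category.id_comp x, ← Category.id_comp y, ← hip, Category.assoc, Category.assoc, hxy]
  have hepi' : Epi p' := by
    constructor
    intro Z x y hxy
    rw [← Category.id_comp x, ← Category.id_comp y, ← hip', Category.assoc, Category.assoc, hxy]
  have hmono : Mono i := by
    constructor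
    intro Z x y hxy
    rw [← Category.comp_id x, ← Category.comp_id y, ← hip, ← Category.assoc, ← Category.assoc,
      hxy]
  have hmono' : Mono i' := by
    constructor
    intro Z x y hxy
    rw [← Category.comp_id x, ← Category.comp_id y, ← hip', ← Category.assoc, ← Category.assoc,
      hxy]
  have c1 : i ≫ p' = 0 := by
    rw [← cancel_epi p, ← cancel_mono i', comp_zero, zero_comp, Category.assoc, Category.assoc,
      hpi', ← Category.assoc, hpi]
    exact hort A B hdis
  have c2 : i' ≫ p = 0 := by
    rw [← cancel_epi p', ← cancel_mono i, comp_zero, zero_comp, Category.assoc, Category.assoc,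
      hpi, ← Category.assoc, hpi']
    exact hort B A hdis.symm
  refine ⟨P, N, ⟨⟨biprod.lift p p', biprod.desc i i', ?_, ?_⟩⟩, ?_, ?_⟩
  · rw [biprod.lift_desc, hpi, hpi', hadd]
  · apply biprod.hom_ext'
    · apply biprod.hom_ext
      · simp [hip]
      · simp [c1]
    · apply biprod.hom_ext
      · simp [c2]
      · simp [hip']
  · apply R.permSum_eq_zero hq (-1) (by norm_num) P
    apply R.degs_of_split hpi hip (-1)
    intro j hj
    apply hmap
    intro hc
    apply hj
    rw [neg_neg]
    exact (Finset.mem_filter.1 hc).2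
  · apply R.permSum_eq_zero hq 1 (by norm_num) N
    apply R.degs_of_split hpi' hip' 1
    intro j hj
    apply hmap
    intro hc
    apply hj
    have h := (Finset.mem_filter.1 hc).2
    rcases Int.even_or_odd j with he | ho
    · exact absurd (by rw [Int.negOnePow_even _ he]; rfl) h
    · rw [Int.negOnePow_odd _ ho]
      rfl

end FrobeniusCohomology

end Pool.Agent.Q227.AB
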