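import Pool.Agent.Q227.AB.Defs

/-!
# Linear algebra: traces of powers, Weil numbers
-/

open Module

universe w

namespace Pool.Agent.Q227.AB

section

variable {K : Type w} [Field K] {V : Type*} [AddCommGroup V] [Module K V] [FiniteDimensional K V]

lemma trace_pow_of_nilp (ψ : Module.End K V) (α : K)
    (h : IsNilpotent (ψ - algebraMap K (Module.End K V) α)) (n : ℕ) :
    LinearMap.trace K V (ψ ^ n) = (finrank K V : K) * α ^ n := by
  induction n with
  | zero => simp
  | succ n ih =>
    rw [pow_succ, Module.End.mul_eq_comp,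
      LinearMap.trace_comp_eq_mul_of_commute_of_isNilpotent α (Commute.pow_self ψ n) h, ih]
    ring

lemma finite_mult (φ : Module.End K V) : {α | mult φ α ≠ 0}.Finite := by
  have h := WellFoundedGT.finite_ne_bot_of_iSupIndep φ.independent_maxGenEigenspace
  refine h.subset ?_
  intro α hα hb
  apply hα
  unfold mult
  rw [hb]
  simp

lemma hasEigenvalue_of_mult {φ : Module.End K V} {α : K} (h : mult φ α ≠ 0) :
    φ.HasEigenvalue α := by
  by_contra hc
  apply h
  unfold mult
  have : φ.maxGenEigenspace α = ⊥ := by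
    rw [Module.End.maxGenEigenspace_eq]
    by_contra hb
    exact hc (Module.End.hasEigenvalue_of_hasGenEigenvalue hb)
  rw [this]
  simp

lemma trace_pow [IsAlgClosed K] (φ : Module.End K V) (S : Finset K)
    (hS : ∀ α, mult φ α ≠ 0 → α ∈ S) (n : ℕ) :
    LinearMap.trace K V (φ ^ n) = ∑ α ∈ S, (mult φ α : K) * α ^ n := by
  classical
  have hds : DirectSum.IsInternal φ.maxGenEigenspace :=
    (DirectSum.isInternal_submodule_iff_iSupIndep_and_iSup_eq_top _).2
      ⟨φ.independent_maxGenEigenspace, φ.iSup_maxGenEigenspace_eq_top⟩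
  have hfin := WellFoundedGT.finite_ne_bot_of_iSupIndep φ.independent_maxGenEigenspace
  have hmap : ∀ α, Set.MapsTo φ (φ.maxGenEigenspace α) (φ.maxGenEigenspace α) := fun α =>
    Module.End.mapsTo_maxGenEigenspace_of_comm rfl α
  have hmapn : ∀ α, Set.MapsTo (φ ^ n) (φ.maxGenEigenspace α) (φ.maxGenEigenspace α) := fun α =>
    Module.End.mapsTo_maxGenEigenspace_of_comm (Commute.pow_right rfl n) α
  rw [LinearMap.trace_eq_sum_trace_restrict' hds hfin hmapn]
  have h1 : ∀ α, LinearMap.trace K (φ.maxGenEigenspace α) ((φ ^ n).restrict (hmapn α)) =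
      (mult φ α : K) * α ^ n := by
    intro α
    rw [← Module.End.pow_restrict n (hmap α)]
    exact trace_pow_of_nilp _ α (φ.isNilpotent_restrict_maxGenEigenspace_sub_algebraMap α) n
  simp only [h1]
  apply Finset.sum_subset_zero_on_sdiff
  · intro α hα
    apply hS
    simp only [Set.Finite.mem_toFinset, Set.mem_setOf_eq] at hα
    intro h0
    apply hα
    exact Submodule.finrank_eq_zero.1 h0
  · intro α hα
    simp only [Finset.mem_sdiff, Set.Finite.mem_toFinset, Set.mem_setOf_eq, not_not] at hα
    have : mult φ α = 0 := by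
      unfold mult
      rw [hα.2]
      simp
    rw [this]
    simp
  · intro α _
    rfl

lemma finrank_eq_sum_mult [IsAlgClosed K] [CharZero K] (φ : Module.End K V) (S : Finset K)
    (hS : ∀ α, mult φ α ≠ 0 → α ∈ S) : finrank K V = ∑ α ∈ S, mult φ α := by
  have h := trace_pow φ S hS 0
  simp only [pow_zero, LinearMap.trace_one, mul_one] at h
  exact_mod_cast h

end

/-- Linear independence of the sequences `n ↦ α ^ n`. -/
lemma eq_zero_of_powers {K : Type w} [Field K] (S : Finset K) (c : K → K)
    (h : ∀ n : ℕ, ∑ α ∈ S, c α * α ^ n = 0) : ∀ α ∈ S, c α = 0 := by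
  classical
  intro α hα
  have hP : ∀ P : Polynomial K, ∑ β ∈ S, c β * P.eval β = 0 := by
    intro P
    induction P using Polynomial.induction_on' with
    | add p q hp hq =>
      simp only [Polynomial.eval_add, mul_add, Finset.sum_add_distrib, hp, hq, add_zero]
    | monomial n a =>
      have : ∑ β ∈ S, c β * Polynomial.eval β (Polynomial.monomial n a) =
          a * ∑ β ∈ S, c β * β ^ n := by
        rw [Finset.mul_sum]
        apply Finset.sum_congr rfl
        intro β _
        simp only [Polynomial.eval_monomial]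
        ring
      rw [this, h n, mul_zero]
  have h1 := hP (∏ β ∈ S.erase α, (Polynomial.X - Polynomial.C β))
  rw [← Finset.add_sum_erase S _ hα] at h1
  have h2 : ∑ x ∈ S.erase α, c x * Polynomial.eval x (∏ β ∈ S.erase α,
      (Polynomial.X - Polynomial.C β)) = 0 := by
    apply Finset.sum_eq_zero
    intro x hx
    rw [Polynomial.eval_prod, Finset.prod_eq_zero hx (by simp), mul_zero]
  rw [h2, add_zero, mul_eq_zero] at h1
  rcases h1 with h1 | h1
  · exact h1
  · exfalso
    rw [Polynomial.eval_prod, Finset.prod_eq_zero_iff] at h1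
    obtain ⟨β, hβ, h3⟩ := h1
    simp only [Polynomial.eval_sub, Polynomial.eval_X, Polynomial.eval_C, sub_eq_zero] at h3
    exact (Finset.mem_erase.1 hβ).1 h3.symm

/-- A Weil number has only one weight. -/
lemma weight_unique {q : ℕ} (hq : 1 < q) {K : Type w} [Field K] [CharZero K] {α : K} {i j : ℤ}
    (hi : IsWeilNumber q i α) (hj : IsWeilNumber q j α) : i = j := by
  have hdeg : (minpoly ℚ α).degree ≠ 0 := (minpoly.degree_pos hi.1).ne'
  obtain ⟨z, hz⟩ := IsAlgClosed.exists_aeval_eq_zero ℂ (minpoly ℚ α) hdeg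
  have h := (hi.2 z hz).symm.trans (hj.2 z hz)
  have hq' : (1 : ℝ) < q := by exact_mod_cast hq
  have h2 := (Real.rpow_right_inj (by positivity) hq'.ne').1 h
  have h3 : (i : ℝ) = j := by linarith
  exact_mod_cast h3

end Pool.Agent.Q227.AB
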