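import Pool.Agent.Q227.AB.Mult

/-!
# If the category is abelian then it has no phantoms
-/

open CategoryTheory MonoidalCategory Limits

universe v u w

namespace Pool.Agent.Q227.AB

lemma isWeilNumber_one (q : ℕ) {K : Type w} [Field K] [CharZero K] :
    IsWeilNumber q 0 (1 : K) := by
  refine ⟨isIntegral_one, ?_⟩
  intro z hz
  rw [minpoly.one] at hz
  have : z = 1 := by
    simpa [sub_eq_zero] using hz
  rw [this]
  simp

section

variable {C : Type u} [Category.{v} C] [MonoidalCategory C] [SymmetricCategory C]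
  [RightRigidCategory C]

lemma pairing_unit (Y : C) [ExactPairing (𝟙_ C) Y] :
    η_ (𝟙_ C) Y ≫ (𝟙 (𝟙_ C) ▷ Y) ≫ (β_ (𝟙_ C) Y).hom ≫ ε_ (𝟙_ C) Y = 𝟙 (𝟙_ C) := by
  have h := ExactPairing.evaluation_coevaluation (𝟙_ C) Y
  rw [whiskerRight_id, id_whiskerLeft] at h
  simp only [id_whiskerRight, Category.id_comp, braiding_tensorUnit_left, Category.assoc]
  have coh : (λ_ Y).hom ≫ (ρ_ Y).inv =
      (ρ_ (𝟙_ C ⊗ Y)).inv ≫ (α_ (𝟙_ C) Y (𝟙_ C)).hom ≫ (λ_ (Y ⊗ 𝟙_ C)).hom := by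
    monoidal
  simp only [Category.assoc] at h
  have h3 : η_ (𝟙_ C) Y ≫ (λ_ Y).hom ≫ (ρ_ Y).inv ≫
      ε_ (𝟙_ C) Y = (ρ_ (𝟙_ C)).inv ≫ ((ρ_ (𝟙_ C)).hom ≫ η_ (𝟙_ C) Y ≫
        (ρ_ (𝟙_ C ⊗ Y)).inv ≫ (α_ (𝟙_ C) Y (𝟙_ C)).hom ≫
        (λ_ (Y ⊗ 𝟙_ C)).hom ≫ ε_ (𝟙_ C) Y ≫ (λ_ (𝟙_ C)).inv) ≫ (λ_ (𝟙_ C)).hom := by
    simp only [Category.assoc, Iso.inv_hom_id, Category.comp_id, Iso.inv_hom_id_assoc]
    rw [reassoc_of% coh]
  rw [h3, h]
  simp [unitors_equal]

lemma tr_id_unit (d : HasRightDual (𝟙_ C)) : tr (𝟙 (𝟙_ C)) = 𝟙 (𝟙_ C) :=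
  pairing_unit _

end

section

variable {C : Type u} [Category.{v} C] [Abelian C] [Linear ℚ C]
    [MonoidalCategory C] [SymmetricCategory C] [RightRigidCategory C] [MonoidalPreadditive C]
    {K : Type w} [Field K] [CharZero K] {q : ℕ}

namespace FrobeniusCohomology

variable (R : FrobeniusCohomology C K q)

include R

lemma idem_unit (f : 𝟙_ C ⟶ 𝟙_ C) (hf : f ≫ f = f) : f = 0 ∨ f = 𝟙 _ := by
  obtain ⟨c, rfl⟩ := R.end_unit f
  have h : (c * c - c) • 𝟙 (𝟙_ C) = 0 := by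
    rw [sub_smul, sub_eq_zero, mul_smul]
    simpa using hf
  rcases smul_eq_zero.1 h with h1 | h1
  · have h2 : c * (c - 1) = 0 := by linear_combination h1
    rcases mul_eq_zero.1 h2 with h3 | h3
    · left
      rw [h3, zero_smul]
    · right
      rw [sub_eq_zero.1 h3, one_smul]
  · exact absurd h1 R.unit_ne_zero

lemma mono_unit {M : C} (f : 𝟙_ C ⟶ M) (hf : f ≠ 0) : Mono f :=
  mono_of_ne_zero R.idem_unit f hf

lemma m_unit [IsAlgClosed K] (hq : 1 < q) : R.m 0 (𝟙_ C) 1 = 1 := by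
  classical
  set S : Finset K := insert 1 (R.eigs (𝟙_ C)) with hS
  have hsub : R.eigs (𝟙_ C) ⊆ S := by
    intro x hx
    simp [hS, hx]
  have hpw : ∀ n, pw (R.fr (𝟙_ C)) n = 𝟙 (𝟙_ C) := by
    intro n
    induction n with
    | zero => rfl
    | succ n ih =>
      simp only [pw, ih]
      unfold fr
      rw [R.frob_unit]
      simp
  have key : ∀ n : ℕ, ∑ x ∈ S, ((R.chi (𝟙_ C) x : K) - if x = 1 then 1 else 0) * x ^ n = 0 := by
    intro n
    have h1 : @tr C _ _ _ (𝟙_ C) (RightRigidCategory.rightDual (𝟙_ C)) (pw (R.fr (𝟙_ C)) n) =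
        (1 : ℚ) • 𝟙 (𝟙_ C) := by
      rw [hpw, tr_id_unit, one_smul]
    have h2 := R.trace_pw (𝟙_ C) S hsub n h1
    simp only [sub_mul, Finset.sum_sub_distrib]
    rw [← h2]
    simp [hS]
  have h3 := eq_zero_of_powers S _ key 1 (by simp [hS])
  simp only [if_true] at h3
  have h4 := R.chi_eq hq (𝟙_ C) (isWeilNumber_one q)
  rw [h4] at h3
  simp only [Int.negOnePow_zero, Units.val_one, one_mul, Int.cast_natCast] at h3
  have h5 : ((R.m 0 (𝟙_ C) 1 : ℕ) : K) = ((1 : ℕ) : K) := by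
    rw [Nat.cast_one]
    exact sub_eq_zero.1 h3
  exact_mod_cast h5

/-- Traces of Frobenius powers are additive in short exact sequences. -/
lemma tr_exact {S : ShortComplex C} (hS : S.ShortExact) (n : ℕ) :
    tr (pw (R.fr S.X₂) n) = tr (pw (R.fr S.X₁) n) + tr (pw (R.fr S.X₃) n) := by
  have := hS.mono_f
  have := hS.epi_g
  refine tr_add S.f S.g ?_ S.zero _ _ _ (R.pw_fr_naturality S.f n) (R.pw_fr_naturality S.g n)
  intro T x hx
  exact ⟨hS.exact.lift x hx, hS.exact.lift_f x hx⟩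

lemma m_exact [IsAlgClosed K] (hq : 1 < q) {S : ShortComplex C} (hS : S.ShortExact) (i : ℤ)
    (α : K) : R.m i S.X₂ α = R.m i S.X₁ α + R.m i S.X₃ α :=
  R.m_add_of_tr hq (R.tr_exact hS) i α

lemma finrank_exact [IsAlgClosed K] (hq : 1 < q) {S : ShortComplex C} (hS : S.ShortExact)
    (i : ℤ) : Module.finrank K ((R.H i).obj S.X₂) =
      Module.finrank K ((R.H i).obj S.X₁) + Module.finrank K ((R.H i).obj S.X₃) :=
  R.finrank_add_of_tr hq (R.tr_exact hS) i

lemma finrank_support (M : C) :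
    (Function.support fun i : ℤ => Module.finrank K ((R.H i).obj M)).Finite := by
  refine (R.bounded M).subset ?_
  intro i hi hc
  apply hi
  have := hc
  exact Module.finrank_zero_of_subsingleton

lemma betti_exact [IsAlgClosed K] (hq : 1 < q) {S : ShortComplex C} (hS : S.ShortExact) :
    R.betti S.X₂ = R.betti S.X₁ + R.betti S.X₃ := by
  unfold betti
  rw [← finsum_add_distrib (R.finrank_support _) (R.finrank_support _)]
  exact finsum_congr fun i => R.finrank_exact hq hS i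

lemma betti_eq_zero {M : C} (h : R.betti M = 0) (i : ℤ) : Subsingleton ((R.H i).obj M) := by
  unfold betti at h
  have h2 := single_le_finsum i (R.finrank_support M) (fun _ => Nat.zero_le _)
  rw [h] at h2
  exact Module.finrank_zero_iff.1 (Nat.le_zero.1 h2)

lemma subsingleton_tensor {M N : C} (h : ∀ i, Subsingleton ((R.H i).obj M)) (n : ℤ) :
    Subsingleton ((R.H n).obj (M ⊗ N)) := by
  obtain ⟨e⟩ := R.kunneth M N n
  apply e.toEquiv.subsingleton_congr.2 
  have h2 : ∀ i : ℤ, Subsingleton (TensorProduct K ((R.H i).obj M) ((R.H (n - i)).obj N)) := by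
    intro i
    have := h i
    infer_instance
  constructor
  intro x y
  ext i
  exact (h2 i).elim _ _

/-- There are no phantom motives. -/
theorem isZero_of_subsingleton [IsAlgClosed K] (hq : 1 < q) {M : C}
    (h : ∀ i, Subsingleton ((R.H i).obj M)) : IsZero M := by
  by_contra hM
  have hη : η_ M (Mᘁ) ≠ 0 := by
    intro h0
    apply hM
    have hz := ExactPairing.evaluation_coevaluation M (Mᘁ)
    rw [h0, MonoidalPreadditive.zero_whiskerRight, zero_comp] at hz
    rw [IsZero.iff_id_eq_zero, ← cancel_epi (λ_ M).hom, ← cancel_mono (ρ_ M).inv, comp_zero,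
      zero_comp, hz]
    simp
  have hmono := R.mono_unit _ hη
  have hex : (ShortComplex.mk (η_ M (Mᘁ)) (cokernel.π _) (cokernel.condition _)).ShortExact :=
    { exact := ShortComplex.exact_cokernel _
      mono_f := hmono
      epi_g := inferInstance }
  have h1 := R.m_exact hq hex 0 1
  simp only at h1
  rw [R.m_unit hq] at h1
  have h2 : R.m 0 (M ⊗ Mᘁ) 1 = 0 := by
    have := R.subsingleton_tensor (N := Mᘁ) h 0
    unfold m mult
    exact Module.finrank_zero_of_subsingleton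
  omega

lemma isZero_of_betti [IsAlgClosed K] (hq : 1 < q) {M : C} (h : R.betti M = 0) : IsZero M :=
  R.isZero_of_subsingleton hq (R.betti_eq_zero h)

end FrobeniusCohomology

end

end Pool.Agent.Q227.AB
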