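import Pool.Agent.Q227.AB.Main1

/-!
# Lengths and nilpotence
-/

open CategoryTheory MonoidalCategory Limits

universe v u w

namespace Pool.Agent.Q227.AB

section

variable {C : Type u} [Category.{v} C]

lemma pw_add {M : C} (f : M ⟶ M) (a b : ℕ) : pw f (a + b) = pw f a ≫ pw f b := by
  induction b with
  | zero => simp [pw]
  | succ b ih =>
    rw [← add_assoc]
    simp only [pw]
    rw [ih, Category.assoc]

lemma pw_comp_comm {M : C} (f : M ⟶ M) (a : ℕ) : f ≫ pw f a = pw f a ≫ f :=
  pw_naturality f f f rfl a

lemma pw_sq {M : C} (f : M ⟶ M) (a : ℕ) : pw (f ≫ f) a = pw f (2 * a) := by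
  induction a with
  | zero => rfl
  | succ a ih =>
    simp only [pw, Nat.mul_succ, ih, Category.assoc]

end

section

variable {C : Type u} [Category.{v} C] [MonoidalCategory C] [SymmetricCategory C]

lemma tr_comm {A B : C} [HasRightDual A] [HasRightDual B] (i : A ⟶ B) (p : B ⟶ A) : tr (i ≫ p) = tr (p ≫ i) := by
  unfold tr
  rw [comp_whiskerRight, comp_whiskerRight]
  simp only [Category.assoc]
  rw [← coevaluation_comp_rightAdjointMate_assoc, whisker_exchange_assoc,
    BraidedCategory.braiding_naturality_right_assoc, rightAdjointMate_comp_evaluation,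
    BraidedCategory.braiding_naturality_left_assoc i]

end

section

variable {C : Type u} [Category.{v} C] [Abelian C] [Linear ℚ C]
    [MonoidalCategory C] [SymmetricCategory C] [RightRigidCategory C] [MonoidalPreadditive C]
    {K : Type w} [Field K] [CharZero K] [IsAlgClosed K] {q : ℕ}

namespace FrobeniusCohomology

variable (R : FrobeniusCohomology C K q)

include R

lemma betti_iso (hq : 1 < q) {A B : C} (e : A ≅ B) : R.betti A = R.betti B := by
  unfold betti
  apply finsum_congr
  intro i
  exact ((R.H i).mapIso e).toLinearEquiv.finrank_eq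

lemma betti_mono (hq : 1 < q) {A B : C} (i : A ⟶ B) [Mono i] :
    R.betti B = R.betti A + R.betti (cokernel i) := by
  have hex : (ShortComplex.mk i (cokernel.π _) (cokernel.condition _)).ShortExact :=
    { exact := ShortComplex.exact_cokernel _
      mono_f := inferInstance
      epi_g := inferInstance }
  exact R.betti_exact hq hex

lemma betti_epi (hq : 1 < q) {A B : C} (p : A ⟶ B) [Epi p] :
    R.betti A = R.betti (kernel p) + R.betti B := by
  have hex : (ShortComplex.mk (kernel.ι p) p (kernel.condition _)).ShortExact :=
    { exact := ShortComplex.exact_kernel _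
      mono_f := inferInstance
      epi_g := inferInstance }
  exact R.betti_exact hq hex

lemma betti_le (hq : 1 < q) {A B : C} (i : A ⟶ B) [Mono i] : R.betti A ≤ R.betti B := by
  rw [R.betti_mono hq i]
  omega

lemma isIso_of_betti_mono (hq : 1 < q) {A B : C} (i : A ⟶ B) [Mono i]
    (h : R.betti B ≤ R.betti A) : IsIso i := by
  have h1 := R.betti_mono hq i
  have h2 : IsZero (cokernel i) := R.isZero_of_betti hq (by omega)
  have h3 : cokernel.π i = 0 := h2.eq_zero_of_tgt _
  have h4 : Epi i := Abelian.epi_of_cokernel_π_eq_zero _ h3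
  exact isIso_of_mono_of_epi i

lemma mono_of_betti_epi (hq : 1 < q) {A B : C} (p : A ⟶ B) [Epi p]
    (h : R.betti A ≤ R.betti B) : Mono p := by
  have h1 := R.betti_epi hq p
  have h2 : IsZero (kernel p) := R.isZero_of_betti hq (by omega)
  exact Abelian.mono_of_kernel_ι_eq_zero _ (h2.eq_zero_of_src _)

lemma betti_lt (hq : 1 < q) {M : C} {P Q : Subobject M} (h : P < Q) :
    R.betti (P : C) < R.betti (Q : C) := by
  by_contra hc
  have := R.isIso_of_betti_mono hq (Subobject.ofLE P Q h.le) (not_lt.1 hc)
  apply h.not_ge
  refine Subobject.le_of_comm (inv (Subobject.ofLE P Q h.le)) ?_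
  rw [IsIso.inv_comp_eq, Subobject.ofLE_arrow]

/-- Chains of subobjects of `M` have length at most the sum of the Betti numbers. -/
theorem chain_le (hq : 1 < q) (M : C) (n : ℕ) (s : Fin (n + 1) → Subobject M)
    (hs : StrictMono s) : n ≤ R.betti M := by
  have h : ∀ j : ℕ, ∀ hj : j < n + 1, j ≤ R.betti (s ⟨j, hj⟩ : C) := by
    intro j
    induction j with
    | zero => intro _; omega
    | succ j ih =>
      intro hj
      have h1 := ih (by omega)
      have h2 := R.betti_lt hq (hs (show (⟨j, by omega⟩ : Fin (n + 1)) < ⟨j + 1, hj⟩ from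
        Nat.lt_succ_self j))
      exact lt_of_le_of_lt h1 h2
  have h1 := h n (Nat.lt_succ_self n)
  exact h1.trans (R.betti_le hq (s ⟨n, Nat.lt_succ_self n⟩).arrow)

lemma exists_image {M : C} (f : M ⟶ M) : ∃ (I : C) (p : M ⟶ I) (i : I ⟶ M),
    Epi p ∧ Mono i ∧ p ≫ i = f :=
  ⟨image f, factorThruImage f, image.ι f, inferInstance, inferInstance, image.fac f⟩

lemma rk_eq (hq : 1 < q) {M I : C} {f : M ⟶ M} (p : M ⟶ I) (i : I ⟶ M) (hp : Epi p)
    (hi : Mono i) (h : p ≫ i = f) : R.betti (image f) = R.betti I := by
  have : StrongEpi p := strongEpi_of_epi p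
  exact R.betti_iso hq (image.isoStrongEpiMono p i h).symm

lemma rk_zero (hq : 1 < q) {M : C} {f : M ⟶ M} (h : R.betti (image f) = 0) : f = 0 := by
  have h1 : IsZero (image f) := R.isZero_of_betti hq h
  rw [← image.fac f, h1.eq_zero_of_tgt (factorThruImage f), zero_comp]

lemma numTriv_sq {M : C} (f : M ⟶ M) (hf : NumTriv f) : NumTriv (f ≫ f) := by
  intro g
  rw [Category.assoc]
  exact hf _

lemma pw_zero_pos {M : C} {n : ℕ} (hn : n ≠ 0) : pw (0 : M ⟶ M) n = 0 := by
  obtain ⟨k, rfl⟩ := Nat.exists_eq_succ_of_ne_zero hn
  simp [pw]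

/-- Nilpotence of numerically trivial endomorphisms, first form. -/
lemma nilp_aux (hq : 1 < q) {M : C} : ∀ (r : ℕ) (f : M ⟶ M), NumTriv f →
    R.betti (image f) ≤ r → pw f (2 ^ r) = 0 := by
  intro r
  induction r with
  | zero =>
    intro f _ h
    simp only [pow_zero, pw, Category.id_comp]
    exact R.rk_zero hq (by omega)
  | succ r ih =>
    intro f hf h
    by_cases hlt : R.betti (image (f ≫ f)) ≤ r
    · have h1 := ih (f ≫ f) (R.numTriv_sq f hf) hlt
      rw [pw_sq] at h1
      rw [pow_succ, mul_comm]
      exact h1
    · -- the image of `f ∘ f` is as large as the image of `f`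
      obtain ⟨I, p, i, hp, hi, hfac⟩ := R.exists_image f
      have hI := R.rk_eq hq p i hp hi hfac
      have hm : Mono (image.ι (i ≫ p) ≫ i) := mono_comp _ _
      have he : Epi (p ≫ factorThruImage (i ≫ p)) := epi_comp _ _
      have hfac2 : (p ≫ factorThruImage (i ≫ p)) ≫ (image.ι (i ≫ p) ≫ i) = f ≫ f := by
        rw [← hfac]
        simp only [Category.assoc]
        rw [image.fac_assoc]
        simp only [Category.assoc]
      have h2 := R.rk_eq hq _ _ he hm hfac2
      have h4 : IsIso (image.ι (i ≫ p)) := R.isIso_of_betti_mono hq _ (by omega)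
      have h5 : Epi (i ≫ p) := by
        rw [← image.fac (i ≫ p)]
        exact epi_comp _ _
      have h6 : Mono (i ≫ p) := R.mono_of_betti_epi hq _ le_rfl
      have h7 : IsIso (i ≫ p) := isIso_of_mono_of_epi _
      -- all traces of Frobenius powers on the image vanish
      have h8 : ∀ n, tr (pw (R.fr I) n) = 0 := by
        intro n
        have h9 : pw (R.fr I) n = i ≫ p ≫ inv (i ≫ p) ≫ pw (R.fr I) n := by
          rw [← Category.assoc i, IsIso.hom_inv_id_assoc]
        rw [h9, tr_comm]
        have h10 : (p ≫ inv (i ≫ p) ≫ pw (R.fr I) n) ≫ i =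
            f ≫ (p ≫ inv (i ≫ p) ≫ inv (i ≫ p) ≫ pw (R.fr I) n ≫ i) := by
          rw [← hfac]
          simp only [Category.assoc]
          rw [← Category.assoc i p, IsIso.hom_inv_id_assoc]
        rw [h10]
        exact hf _
      have h11 : R.betti I = 0 := by
        have h12 : ∀ j, Module.finrank K ((R.H j).obj I) = 0 := by
          intro j
          have := R.finrank_add_of_tr hq (A := I) (B := I) (D := I)
            (fun n => by rw [h8 n, add_zero]) j
          omega
        unfold betti
        rw [finsum_congr h12, finsum_zero]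
      have h13 : f = 0 := R.rk_zero hq (hI.trans h11)
      rw [h13]
      exact R.pw_zero_pos (pow_ne_zero _ two_ne_zero)

/-- A nilpotent endomorphism has nilpotency index at most the sum of the Betti numbers. -/
lemma index_le (hq : 1 < q) {M : C} (f : M ⟶ M) (N : ℕ) (hN : pw f N = 0) :
    pw f (R.betti M) = 0 := by
  have key : ∀ k, pw f k = 0 ∨ R.betti (image (pw f k)) + k ≤ R.betti M := by
    intro k
    induction k with
    | zero =>
      right
      have := R.betti_le hq (image.ι (pw f 0))
      omega
    | succ k ih =>
      rcases ih with ih | ih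
      · left
        simp [pw, ih]
      · by_cases hlt : R.betti (image (pw f (k + 1))) < R.betti (image (pw f k))
        · right
          omega
        · left
          obtain ⟨I, p, i, hp, hi, hfac⟩ := R.exists_image (pw f k)
          have hI := R.rk_eq hq p i hp hi hfac
          have hcomm : f ≫ pw f k = pw f k ≫ f := pw_comp_comm f k
          -- `f` maps the image of `f ^ k` to itself
          obtain ⟨φ, hφ⟩ : ∃ φ : I ⟶ I, φ ≫ i = i ≫ f := by
            refine lift_of_mono i (i ≫ f) ?_
            rw [← cancel_epi p, comp_zero, ← Category.assoc, ← Category.assoc, hfac, ← hcomm,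
              ← hfac, Category.assoc, Category.assoc, cokernel.condition, comp_zero, comp_zero]
          have hm : Mono (image.ι φ ≫ i) := mono_comp _ _
          have he : Epi (p ≫ factorThruImage φ) := epi_comp _ _
          have hfac2 : (p ≫ factorThruImage φ) ≫ (image.ι φ ≫ i) = pw f (k + 1) := by
            simp only [Category.assoc]
            rw [image.fac_assoc, hφ, ← Category.assoc, hfac]
            rfl
          have h2 := R.rk_eq hq _ _ he hm hfac2
          have h4 : IsIso (image.ι φ) := R.isIso_of_betti_mono hq _ (by omega)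
          have h5 : Epi φ := by
            rw [← image.fac φ]
            exact epi_comp _ _
          have h6 : ∀ n, Epi (pw φ n) := by
            intro n
            induction n with
            | zero => simp only [pw]; infer_instance
            | succ n ihn => simp only [pw]; exact epi_comp _ _
          have h7 : pw φ N = 0 := by
            have h := pw_naturality φ f i hφ.symm N
            rw [hN, comp_zero] at h
            rw [← cancel_mono i, zero_comp]
            exact h.symm
          have h8 : IsZero I := by
            have := h6 N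
            rw [IsZero.iff_id_eq_zero, ← cancel_epi (pw φ N), h7, zero_comp, zero_comp]
          have h9 : pw f k = 0 := by
            rw [← hfac, h8.eq_zero_of_tgt p, zero_comp]
          simp only [pw]
          rw [h9, zero_comp]
  rcases key (R.betti M) with h | h
  · exact h
  · exact R.rk_zero hq (by omega)

/-- Numerically trivial endomorphisms are nilpotent. -/
theorem nilp (hq : 1 < q) {M : C} (f : M ⟶ M) (hf : NumTriv f) : pw f (R.betti M) = 0 :=
  R.index_le hq f _ (R.nilp_aux hq _ f hf le_rfl)

/-- Homologically trivial endomorphisms are numerically trivial. -/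
lemma numTriv_of_hom {M : C} (f : M ⟶ M) (hf : ∀ i, (R.H i).map f = 0) : NumTriv f := by
  intro g
  obtain ⟨c, hc⟩ := R.end_unit (tr (f ≫ g))
  have h := R.lefschetz M _ c hc
  have h2 : (c : K) = 0 := by
    rw [h]
    apply finsum_eq_zero_of_forall_eq_zero
    intro i
    rw [Functor.map_comp, hf i]
    simp
  have h3 : c = 0 := by exact_mod_cast h2
  rw [hc, h3, zero_smul]

end FrobeniusCohomology

end

end Pool.Agent.Q227.AB
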