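import Pool.Agent.Q227.AB.Main2

/-!
# Finiteness of the groups of morphisms
-/

open CategoryTheory MonoidalCategory Limits

universe v u w

namespace Pool.Agent.Q227.AB

section

variable {C : Type u} [Category.{v} C] [Abelian C] [Linear ℚ C]
    [MonoidalCategory C] [SymmetricCategory C] [RightRigidCategory C] [MonoidalPreadditive C]
    {K : Type w} [Field K] [CharZero K] [IsAlgClosed K] {q : ℕ}

namespace FrobeniusCohomology

variable (R : FrobeniusCohomology C K q)

include R

theorem hom_unit (hq : 1 < q) : ∀ (n : ℕ) (M : C), R.m 0 M 1 = n →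
    Module.Finite ℚ (𝟙_ C ⟶ M) ∧ Module.finrank ℚ (𝟙_ C ⟶ M) ≤ n := by
  intro n
  induction n with
  | zero =>
    intro M hM
    have hz : ∀ f : 𝟙_ C ⟶ M, f = 0 := by
      intro f
      by_contra hf
      have := R.mono_unit f hf
      have hex : (ShortComplex.mk f (cokernel.π _) (cokernel.condition _)).ShortExact :=
        { exact := ShortComplex.exact_cokernel _
          mono_f := inferInstance
          epi_g := inferInstance }
      have h1 := R.m_exact hq hex 0 1
      simp only at h1
      rw [R.m_unit hq] at h1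
      omega
    have hs : Subsingleton (𝟙_ C ⟶ M) := ⟨fun a b => by rw [hz a, hz b]⟩
    refine ⟨inferInstance, ?_⟩
    rw [Module.finrank_zero_of_subsingleton]
  | succ n ih =>
    intro M hM
    by_cases hz : ∀ f : 𝟙_ C ⟶ M, f = 0
    · have hs : Subsingleton (𝟙_ C ⟶ M) := ⟨fun a b => by rw [hz a, hz b]⟩
      refine ⟨inferInstance, ?_⟩
      rw [Module.finrank_zero_of_subsingleton]
      omega
    · push_neg at hz
      obtain ⟨f, hf⟩ := hz
      have := R.mono_unit f hf
      have hex : (ShortComplex.mk f (cokernel.π _) (cokernel.condition _)).ShortExact :=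
        { exact := ShortComplex.exact_cokernel _
          mono_f := inferInstance
          epi_g := inferInstance }
      have h1 := R.m_exact hq hex 0 1
      simp only at h1
      rw [R.m_unit hq] at h1
      obtain ⟨hfin, hle⟩ := ih (cokernel f) (by omega)
      let φ : (𝟙_ C ⟶ M) →ₗ[ℚ] (𝟙_ C ⟶ cokernel f) := Linear.rightComp ℚ _ (cokernel.π f)
      have hker : LinearMap.ker φ ≤ Submodule.span ℚ {f} := by
        intro g hg
        have hg' : g ≫ cokernel.π f = 0 := hg
        obtain ⟨y, hy⟩ := lift_of_mono f g hg'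
        obtain ⟨c, hc⟩ := R.end_unit y
        rw [Submodule.mem_span_singleton]
        refine ⟨c, ?_⟩
        rw [← hy, hc, Linear.smul_comp, Category.id_comp]
      have hk1 : Module.Finite ℚ (Submodule.span ℚ {f}) := inferInstance
      have hk2 : Module.Finite ℚ (LinearMap.ker φ) :=
        Submodule.finiteDimensional_of_le hker
      have hq2 : Module.Finite ℚ ((𝟙_ C ⟶ M) ⧸ LinearMap.ker φ) :=
        Module.Finite.equiv φ.quotKerEquivRange.symm
      have hfinM : Module.Finite ℚ (𝟙_ C ⟶ M) :=
        Module.Finite.of_submodule_quotient (LinearMap.ker φ)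
      refine ⟨hfinM, ?_⟩
      have h3 := φ.finrank_range_add_finrank_ker
      have h4 : Module.finrank ℚ (LinearMap.range φ) ≤ Module.finrank ℚ (𝟙_ C ⟶ cokernel f) :=
        Submodule.finrank_le _
      have h5 : Module.finrank ℚ (LinearMap.ker φ) ≤ 1 := by
        refine (Submodule.finrank_mono hker).trans ?_
        exact (finrank_span_le_card _).trans (by simp)
      omega

theorem finite_unit (hq : 1 < q) (M : C) : Module.Finite ℚ (𝟙_ C ⟶ M) :=
  (R.hom_unit hq _ M rfl).1

theorem finrank_unit (hq : 1 < q) (M : C) : Module.finrank ℚ (𝟙_ C ⟶ M) ≤ R.m 0 M 1 :=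
  (R.hom_unit hq _ M rfl).2

/-- Tate's equality implies that rational and numerical equivalence agree. -/
theorem numZero_eq_bot (hq : 1 < q) (M : C)
    (h : R.m 0 M 1 ≤ Module.finrank ℚ ((𝟙_ C ⟶ M) ⧸ numZero M)) : numZero M = ⊥ := by
  have := R.finite_unit hq M
  have h1 := R.finrank_unit hq M
  have h2 := Submodule.finrank_quotient_add_finrank (numZero M)
  exact Submodule.finrank_eq_zero.1 (by omega)

/-- The adjunction `Hom(M, N) = Hom(𝟙, N ⊗ Mᘁ)` as a linear map. -/
noncomputable def homMap (M N : C) : (M ⟶ N) →ₗ[ℚ] (𝟙_ C ⟶ N ⊗ Mᘁ) :=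
  AddMonoidHom.toRatLinearMap
    { toFun := fun f => tensorRightHomEquiv (𝟙_ C) M (Mᘁ) N ((λ_ M).hom ≫ f)
      map_zero' := by
        simp [tensorRightHomEquiv]
      map_add' := by
        intro f g
        simp [tensorRightHomEquiv, Preadditive.comp_add, MonoidalPreadditive.add_whiskerRight] }

omit R in
lemma homMap_injective (M N : C) : Function.Injective (homMap M N) := by
  intro f g h
  have h1 : tensorRightHomEquiv (𝟙_ C) M (Mᘁ) N ((λ_ M).hom ≫ f) =
    tensorRightHomEquiv (𝟙_ C) M (Mᘁ) N ((λ_ M).hom ≫ g) := h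
  have h2 := (tensorRightHomEquiv (𝟙_ C) M (Mᘁ) N).injective h1
  exact (cancel_epi _).1 h2

theorem finite_hom (hq : 1 < q) (M N : C) : Module.Finite ℚ (M ⟶ N) := by
  have := R.finite_unit hq (N ⊗ Mᘁ)
  exact Module.Finite.of_injective (homMap M N) (homMap_injective M N)

theorem finrank_hom (hq : 1 < q) (M N : C) :
    Module.finrank ℚ (M ⟶ N) ≤ R.m 0 (N ⊗ Mᘁ) 1 := by
  have := R.finite_unit hq (N ⊗ Mᘁ)
  exact (LinearMap.finrank_le_finrank_of_injective (homMap_injective M N)).trans
    (R.finrank_unit hq _)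

theorem smash_ne_zero {M : C} (f : 𝟙_ C ⟶ M) (hf : f ≠ 0) (n : ℕ) : smash f n ≠ 0 := by
  have h : ∀ n, Mono (smash f n) := by
    intro n
    induction n with
    | zero =>
      exact (inferInstance : Mono (𝟙 (𝟙_ C)))
    | succ n ih =>
      simp only [smash]
      rw [MonoidalCategory.tensorHom_def]
      have := R.mono_unit f hf
      have h1 := mono_whiskerRight' (smash f n) (𝟙_ C)
      have h2 := mono_whiskerLeft f (tpow M n)
      have h3 := @mono_comp C _ _ _ _ (smash f n ▷ 𝟙_ C) h1 (tpow M n ◁ f) h2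
      exact @mono_comp C _ _ _ _ (λ_ (𝟙_ C)).inv inferInstance _ h3
  intro h0
  have := h n
  apply R.unit_ne_zero
  rw [← cancel_mono (smash f n), h0, comp_zero, comp_zero]

end FrobeniusCohomology

end

end Pool.Agent.Q227.AB
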