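import Pool.Agent.Q227.AB.Poly

/-!
# The weight decomposition
-/

open CategoryTheory MonoidalCategory Limits Polynomial

universe v u w

namespace Pool.Agent.Q227.AB

lemma mult_of_hasEigenvalue {K : Type w} [Field K] {V : Type*} [AddCommGroup V] [Module K V]
    [FiniteDimensional K V] {φ : Module.End K V} {α : K} (h : φ.HasEigenvalue α) :
    mult φ α ≠ 0 := by
  intro h0
  have h1 : φ.maxGenEigenspace α = ⊥ := Submodule.finrank_eq_zero.1 h0
  apply h
  rw [eq_bot_iff, ← h1]
  exact Module.End.eigenspace_le_maxGenEigenspace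

section

variable {C : Type u} [Category.{v} C] [Abelian C] [Linear ℚ C]
    [MonoidalCategory C] [SymmetricCategory C] [RightRigidCategory C] [MonoidalPreadditive C]
    {K : Type w} [Field K] [CharZero K] [IsAlgClosed K] {q : ℕ}

namespace FrobeniusCohomology

variable (R : FrobeniusCohomology C K q)

/-- The product of the minimal polynomials of the eigenvalues of Frobenius on `H^i(M)`. -/
noncomputable def pol (i : ℤ) (M : C) : ℚ[X] :=
  ∏ α ∈ (finite_mult (R.frH i M)).toFinset, minpoly ℚ α

lemma pol_ofWeight (i : ℤ) (M : C) : OfWeight q i (R.pol i M) := by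
  apply OfWeight.prod
  intro α hα
  have h1 : mult (R.frH i M) α ≠ 0 := (finite_mult (R.frH i M)).mem_toFinset.1 hα
  exact (R.weight_of_m h1).2

lemma pol_root (i : ℤ) (M : C) {a : K} (ha : (R.frH i M).HasEigenvalue a) :
    ((R.pol i M).map (algebraMap ℚ K)).eval a = 0 := by
  rw [Polynomial.eval_map_algebraMap, pol, map_prod]
  apply Finset.prod_eq_zero (i := a)
  · rw [Set.Finite.mem_toFinset]
    exact mult_of_hasEigenvalue ha
  · exact minpoly.aeval ℚ a

lemma finrank_le_betti (i : ℤ) (M : C) :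
    Module.finrank K ((R.H i).obj M) ≤ R.betti M :=
  single_le_finsum i (R.finrank_support M) (fun _ => Nat.zero_le _)

lemma map_ev_pol_pow (i : ℤ) (M : C) (n : ℕ) (hn : R.betti M ≤ n) :
    (R.H i).map (R.ev M (R.pol i M ^ n)) = 0 := by
  ext1
  rw [R.map_ev, Polynomial.map_pow, aeval_pow_eq_zero _ _ (fun a ha => R.pol_root i M ha) n
    ((R.finrank_le_betti i M).trans hn)]
  rfl

lemma map_ev_of_dvd (i : ℤ) (M : C) {P Q : ℚ[X]} (h : P ∣ Q)
    (hP : (R.H i).map (R.ev M P) = 0) : (R.H i).map (R.ev M Q) = 0 := by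
  obtain ⟨c, rfl⟩ := h
  rw [R.ev_mul, Functor.map_comp, hP, Limits.zero_comp]

lemma map_zero_of_notMem {i : ℤ} {M : C} (h : i ∉ R.degs M) (f : M ⟶ M) :
    (R.H i).map f = 0 := by
  have := R.subsingleton_of_notMem h
  ext x
  exact Subsingleton.elim _ _

theorem exists_decomp (hq : 1 < q) (M : C) : ∃ (π : ℤ → (M ⟶ M)) (Q : ℤ → ℚ[X]),
    (∀ i, i ∉ R.degs M → π i = 0) ∧ (∑ i ∈ R.degs M, π i = 𝟙 M) ∧
    (∀ i, OfWeight q i (Q i)) ∧ (∀ i, π i ≫ R.ev M (Q i) = 0) ∧
    (∀ i j, i ≠ j → (R.H j).map (π i) = 0) := by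
  classical
  set b := R.betti M with hb
  set E := b * b + b with hE
  set P := ∏ i ∈ R.degs M, R.pol i M with hP
  -- the product of all polynomials is nilpotent at Frobenius
  have hPz : R.ev M (P ^ E) = 0 := by
    have h1 : ∀ i, (R.H i).map (R.ev M (P ^ b)) = 0 := by
      intro i
      by_cases hi : i ∈ R.degs M
      · apply R.map_ev_of_dvd i M (P := R.pol i M ^ b)
        · exact pow_dvd_pow_of_dvd (Finset.dvd_prod_of_mem _ hi) _
        · exact R.map_ev_pol_pow i M b le_rfl
      · exact R.map_zero_of_notMem hi _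
    have h2 := R.nilp hq _ (R.numTriv_of_hom _ h1)
    rw [← R.ev_pow, ← pow_mul] at h2
    rw [hE, pow_add, R.ev_mul, h2, Limits.zero_comp]
  set Q : ℤ → ℚ[X] := fun i => R.pol i M ^ E with hQ
  have hQw : ∀ i, OfWeight q i (Q i) := fun i => (R.pol_ofWeight i M).pow E
  have hQH : ∀ i, (R.H i).map (R.ev M (Q i)) = 0 :=
    fun i => R.map_ev_pol_pow i M E (by rw [hE]; exact Nat.le_add_left _ _)
  by_cases hne : (R.degs M).Nonempty
  · obtain ⟨μ, hμ⟩ := (exists_sum_eq_one_iff_pairwise_coprime (t := R.degs M) (s := Q) hne).2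
      (fun i j hij => (hQw i).coprime hq (fun h => hij (Subtype.ext h)) (hQw j))
    set e : ℤ → ℚ[X] := fun i =>
      if i ∈ R.degs M then μ i * ∏ j ∈ R.degs M \ {i}, Q j else 0 with he
    refine ⟨fun i => R.ev M (e i), Q, ?_, ?_, hQw, ?_, ?_⟩
    · intro i hi
      simp only [he, if_neg hi, R.ev_zero]
    · rw [← R.ev_sum, ← R.ev_one, ← hμ]
      congr 1
      apply Finset.sum_congr rfl
      intro i hi
      simp only [he, if_pos hi]
    · intro i
      by_cases hi : i ∈ R.degs M
      · simp only [he, if_pos hi]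
        rw [← R.ev_mul]
        have : μ i * (∏ j ∈ R.degs M \ {i}, Q j) * Q i = P ^ E * μ i := by
          have h1 := Finset.prod_sdiff (f := Q) (Finset.singleton_subset_iff.2 hi)
          rw [Finset.prod_singleton] at h1
          rw [mul_assoc, h1, hP, ← Finset.prod_pow, mul_comm]
        rw [this, R.ev_mul, hPz, Limits.zero_comp]
      · simp only [he, if_neg hi, R.ev_zero, Limits.zero_comp]
    · intro i j hij
      by_cases hj : j ∈ R.degs M
      · by_cases hi : i ∈ R.degs M
        · simp only [he, if_pos hi]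
          apply R.map_ev_of_dvd j M (P := Q j) _ (hQH j)
          apply Dvd.dvd.mul_left
          apply Finset.dvd_prod_of_mem
          simp [hj, hij.symm]
        · simp only [he, if_neg hi, R.ev_zero]
          have := R.additive j
          exact Functor.map_zero _ _ _
      · exact R.map_zero_of_notMem hj _
  · have hemp : R.degs M = ∅ := Finset.not_nonempty_iff_eq_empty.1 hne
    have hz : IsZero M := R.isZero_of_subsingleton hq fun i =>
      R.subsingleton_of_notMem (by rw [hemp]; simp)
    refine ⟨fun _ => 0, Q, fun _ _ => rfl, ?_, hQw, fun _ => Limits.zero_comp, ?_⟩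
    · exact hz.eq_of_src _ _
    · intro i j _
      have := R.additive j
      exact Functor.map_zero _ _ _

/-- The natural weight decomposition. -/
theorem weight_decomposition (hq : 1 < q) : ∃ π : ∀ M : C, ℤ → (M ⟶ M),
    (∀ (M N : C) (f : M ⟶ N) (i : ℤ), π M i ≫ f = f ≫ π N i) ∧
    (∀ (M : C) (i : ℤ), π M i ≫ π M i = π M i) ∧
    (∀ (M : C) (i j : ℤ), i ≠ j → π M i ≫ π M j = 0) ∧
    (∀ M : C, {i : ℤ | π M i ≠ 0}.Finite ∧ ∑ᶠ i : ℤ, π M i = 𝟙 M) ∧
    (∀ (M : C) (i : ℤ), (R.H i).map (π M i) = 𝟙 ((R.H i).obj M)) ∧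
    (∀ (M : C) (i j : ℤ), i ≠ j → (R.H j).map (π M i) = 0) := by
  classical
  choose π Q h1 h2 h3 h4 h5 using fun M : C => R.exists_decomp hq M
  -- no morphisms between different weights
  have key : ∀ (M N : C) (f : M ⟶ N) (i j : ℤ), i ≠ j → π M i ≫ f ≫ π N j = 0 := by
    intro M N f i j hij
    obtain ⟨a, b, hab⟩ := (h3 M i).coprime hq hij (h3 N j)
    have hg : π M i ≫ f ≫ π N j = (π M i ≫ f ≫ π N j) ≫ R.ev N (a * Q M i + b * Q N j) := by
      rw [hab, R.ev_one, Category.comp_id]
    rw [hg, R.ev_add, Preadditive.comp_add, mul_comm a, mul_comm b, R.ev_mul, R.ev_mul]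
    have e1 : (π M i ≫ f ≫ π N j) ≫ R.ev N (Q M i) ≫ R.ev N a = 0 := by
      have c1 : R.ev M (Q M i) ≫ π M i = 0 := by
        rw [← R.ev_naturality (π M i), h4]
      rw [← Category.assoc, R.ev_naturality (π M i ≫ f ≫ π N j) (Q M i),
        ← Category.assoc (R.ev M (Q M i)), c1, Limits.zero_comp, Limits.zero_comp]
    have e2 : (π M i ≫ f ≫ π N j) ≫ R.ev N (Q N j) ≫ R.ev N b = 0 := by
      have := h4 N j
      simp only [Category.assoc]
      rw [← Category.assoc (π N j), this, Limits.zero_comp, Limits.comp_zero, Limits.comp_zero]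
    rw [e1, e2, add_zero]
  have hl : ∀ (M N : C) (f : M ⟶ N) (i : ℤ), π M i ≫ f = π M i ≫ f ≫ π N i := by
    intro M N f i
    conv_lhs => rw [← Category.comp_id f, ← h2 N, Preadditive.comp_sum, Preadditive.comp_sum]
    by_cases hi : i ∈ R.degs N
    · rw [Finset.sum_eq_single_of_mem i hi]
      intro j _ hj
      exact key M N f i j hj.symm
    · rw [h1 N i hi, Limits.comp_zero, Limits.comp_zero]
      apply Finset.sum_eq_zero
      intro j hj
      exact key M N f i j (fun h => hi (h ▸ hj))
  have hr : ∀ (M N : C) (f : M ⟶ N) (i : ℤ), f ≫ π N i = π M i ≫ f ≫ π N i := by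
    intro M N f i
    conv_lhs => rw [← Category.id_comp f, ← h2 M, Preadditive.sum_comp, Preadditive.sum_comp]
    by_cases hi : i ∈ R.degs M
    · rw [Finset.sum_eq_single_of_mem i hi]
      · rw [Category.assoc]
      · intro j _ hj
        rw [Category.assoc]
        exact key M N f j i hj
    · rw [h1 M i hi, Limits.zero_comp]
      apply Finset.sum_eq_zero
      intro j hj
      rw [Category.assoc]
      exact key M N f j i (fun h => hi (h ▸ hj))
  have hidem : ∀ (M : C) (i : ℤ), π M i ≫ π M i = π M i := by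
    intro M i
    have := hl M M (𝟙 M) i
    rw [Category.comp_id, Category.id_comp] at this
    exact this.symm
  refine ⟨π, fun M N f i => (hl M N f i).trans (hr M N f i).symm, hidem, ?_, ?_, ?_, h5⟩
  · intro M i j hij
    have := key M M (𝟙 M) i j hij
    rwa [Category.id_comp] at this
  · intro M
    have hs : Function.support (π M) ⊆ ↑(R.degs M) := by
      intro i hi
      by_contra hc
      exact hi (h1 M i hc)
    refine ⟨(Finset.finite_toSet _).subset hs, ?_⟩
    rw [finsum_eq_sum_of_support_subset _ hs, h2 M]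
  · intro M i
    by_cases hi : i ∈ R.degs M
    · have := R.additive i
      have e : (R.H i).map (∑ i ∈ R.degs M, π M i) = (R.H i).map (𝟙 M) := by rw [h2 M]
      rw [Functor.map_sum, Finset.sum_eq_single_of_mem i hi (fun j _ hj => h5 M j i hj),
        CategoryTheory.Functor.map_id] at e
      exact e
    · have := R.subsingleton_of_notMem hi
      ext x
      exact Subsingleton.elim _ _

end FrobeniusCohomology

end

end Pool.Agent.Q227.AB
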