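import Pool.Agent.Q227.AB.Unit
import Pool.Agent.Q227.AB.Lin

/-!
# Multiplicities of Frobenius eigenvalues are additive in short exact sequences
-/

open CategoryTheory MonoidalCategory Limits

universe v u w

namespace Pool.Agent.Q227.AB

section

variable {C : Type u} [Category.{v} C]

lemma pw_naturality {M N : C} (a : M ⟶ M) (b : N ⟶ N) (f : M ⟶ N) (h : f ≫ b = a ≫ f) (n : ℕ) :
    f ≫ pw b n = pw a n ≫ f := by
  induction n with
  | zero => simp [pw]
  | succ n ih =>
    simp only [pw]
    rw [← Category.assoc, ih, Category.assoc, h, Category.assoc]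

end

variable {C : Type u} [Category.{v} C] [Preadditive C] [Linear ℚ C]
    [MonoidalCategory C] [SymmetricCategory C] [RightRigidCategory C] {K : Type w} [Field K]
    [CharZero K] {q : ℕ}

namespace FrobeniusCohomology

/-- The Frobenius endomorphism of `M`. -/
def fr (R : FrobeniusCohomology C K q) (M : C) : M ⟶ M := R.Frob.app M

/-- The Frobenius endomorphism of `H^i(M)`. -/
def frH (R : FrobeniusCohomology C K q) (i : ℤ) (M : C) : Module.End K ((R.H i).obj M) :=
  ((R.H i).map (R.Frob.app M)).hom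

/-- The multiplicity of `α` as an eigenvalue of Frobenius on `H^i(M)`. -/
noncomputable def m (R : FrobeniusCohomology C K q) (i : ℤ) (M : C) (α : K) : ℕ :=
  mult (R.frH i M) α

variable (R : FrobeniusCohomology C K q)

instance (i : ℤ) (M : C) : Module.Finite K ((R.H i).obj M) := R.finite i M

lemma fr_naturality {M N : C} (f : M ⟶ N) : f ≫ R.fr N = R.fr M ≫ f :=
  R.Frob.naturality f

lemma pw_fr_naturality {M N : C} (f : M ⟶ N) (n : ℕ) :
    f ≫ pw (R.fr N) n = pw (R.fr M) n ≫ f :=
  pw_naturality _ _ f (R.fr_naturality f) n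

lemma map_pw (i : ℤ) {M : C} (f : M ⟶ M) (n : ℕ) :
    ((R.H i).map (pw f n)).hom = (((R.H i).map f).hom : Module.End K _) ^ n := by
  induction n with
  | zero => simp [pw]; rfl
  | succ n ih =>
    simp only [pw, Functor.map_comp, ModuleCat.hom_comp, ih]
    rw [pow_succ', Module.End.mul_eq_comp]

/-- The degrees in which the cohomology of `M` does not vanish. -/
noncomputable def degs (M : C) : Finset ℤ := (R.bounded M).toFinset

lemma subsingleton_of_notMem {M : C} {i : ℤ} (h : i ∉ R.degs M) :
    Subsingleton ((R.H i).obj M) := by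
  by_contra hc
  exact h ((R.bounded M).mem_toFinset.2 hc)

lemma m_eq_zero_of_notMem {M : C} {i : ℤ} (h : i ∉ R.degs M) (α : K) : R.m i M α = 0 := by
  have := R.subsingleton_of_notMem h
  unfold m mult
  exact Module.finrank_zero_of_subsingleton

lemma weight_of_m {M : C} {i : ℤ} {α : K} (h : R.m i M α ≠ 0) : IsWeilNumber q i α :=
  R.weights M i α (hasEigenvalue_of_mult h)

/-- The alternating sum of the multiplicities. -/
noncomputable def chi (M : C) (α : K) : ℤ := ∑ i ∈ R.degs M, (Int.negOnePow i : ℤ) * R.m i M α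

lemma chi_eq (hq : 1 < q) (M : C) {i : ℤ} {α : K} (h : IsWeilNumber q i α) :
    R.chi M α = (Int.negOnePow i : ℤ) * R.m i M α := by
  unfold chi
  by_cases hi : i ∈ R.degs M
  · rw [Finset.sum_eq_single_of_mem i hi]
    intro j _ hj
    have : R.m j M α = 0 := by
      by_contra hc
      exact hj (weight_unique hq (R.weight_of_m hc) h)
    rw [this]
    simp
  · rw [R.m_eq_zero_of_notMem hi, Finset.sum_eq_zero]
    · simp
    · intro j hj
      have : R.m j M α = 0 := by
        by_contra hc
        exact hi (weight_unique hq (R.weight_of_m hc) h ▸ hj)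
      rw [this]
      simp

/-- The eigenvalues of Frobenius on the cohomology of `M`. -/
lemma eigs_finite (M : C) : {α : K | ∃ i, R.m i M α ≠ 0}.Finite := by
  have : {α : K | ∃ i, R.m i M α ≠ 0} ⊆ ⋃ i ∈ R.degs M, {α : K | R.m i M α ≠ 0} := by
    rintro α ⟨i, hi⟩
    simp only [Set.mem_iUnion, Set.mem_setOf_eq]
    refine ⟨i, ?_, hi⟩
    by_contra hc
    exact hi (R.m_eq_zero_of_notMem hc α)
  refine Set.Finite.subset ?_ this
  exact Set.Finite.biUnion (Finset.finite_toSet _) (fun i _ => finite_mult (R.frH i M))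

noncomputable def eigs (M : C) : Finset K := (R.eigs_finite M).toFinset

lemma mem_eigs {M : C} {i : ℤ} {α : K} (h : R.m i M α ≠ 0) : α ∈ R.eigs M :=
  (R.eigs_finite M).mem_toFinset.2 ⟨i, h⟩

lemma trace_pw [IsAlgClosed K] (M : C) (S : Finset K) (hS : R.eigs M ⊆ S) (n : ℕ) {r : ℚ}
    (hr : tr (pw (R.fr M) n) = r • 𝟙 (𝟙_ C)) :
    (r : K) = ∑ α ∈ S, (R.chi M α : K) * α ^ n := by
  rw [R.lefschetz M _ r hr]
  rw [finsum_eq_sum_of_support_subset (s := R.degs M)]
  · have h1 : ∀ i ∈ R.degs M, ((Int.negOnePow i : ℤ) : K) *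
        LinearMap.trace K _ ((R.H i).map (pw (R.fr M) n)).hom =
        ∑ α ∈ S, ((Int.negOnePow i : ℤ) : K) * (R.m i M α : K) * α ^ n := by
      intro i _
      rw [R.map_pw i (R.fr M) n]
      have := trace_pow (R.frH i M) S (fun α hα => hS (R.mem_eigs hα)) n
      unfold frH at this
      unfold fr
      rw [this, Finset.mul_sum]
      apply Finset.sum_congr rfl
      intro α _
      rw [mul_assoc]
      rfl
    rw [Finset.sum_congr rfl h1, Finset.sum_comm]
    apply Finset.sum_congr rfl
    intro α _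
    unfold chi
    push_cast
    rw [Finset.sum_mul]
  · intro i hi
    by_contra hc
    have := R.subsingleton_of_notMem hc
    apply hi
    simp only
    have h2 : ((R.H i).map (pw (R.fr M) n)).hom = 0 := by
      ext x
      exact Subsingleton.elim _ _
    rw [h2]
    simp

/-- Additivity of the Euler characteristics for additive traces. -/
lemma chi_add [IsAlgClosed K] {A B D : C}
    (h : ∀ n, tr (pw (R.fr B) n) = tr (pw (R.fr A) n) + tr (pw (R.fr D) n)) (α : K) :
    R.chi B α = R.chi A α + R.chi D α := by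
  classical
  set S : Finset K := insert α (R.eigs A ∪ R.eigs B ∪ R.eigs D) with hS
  have hA : R.eigs A ⊆ S := by
    intro x hx
    simp [hS, hx]
  have hB : R.eigs B ⊆ S := by
    intro x hx
    simp [hS, hx]
  have hD : R.eigs D ⊆ S := by
    intro x hx
    simp [hS, hx]
  have key : ∀ n : ℕ, ∑ x ∈ S, ((R.chi B x : K) - R.chi A x - R.chi D x) * x ^ n = 0 := by
    intro n
    obtain ⟨a, ha⟩ := R.end_unit (tr (pw (R.fr A) n))
    obtain ⟨d, hd⟩ := R.end_unit (tr (pw (R.fr D) n))
    have hb : tr (pw (R.fr B) n) = (a + d) • 𝟙 (𝟙_ C) := by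
      rw [h n, ha, hd, add_smul]
    have e1 := R.trace_pw A S hA n ha
    have e2 := R.trace_pw D S hD n hd
    have e3 := R.trace_pw B S hB n hb
    simp only [sub_mul, Finset.sum_sub_distrib]
    rw [← e1, ← e2, ← e3]
    push_cast
    ring
  have := eq_zero_of_powers S _ key α (by simp [hS])
  have h2 : (R.chi B α : K) = ((R.chi A α + R.chi D α : ℤ) : K) := by
    push_cast
    linear_combination this
  exact_mod_cast h2

lemma m_add_of_tr [IsAlgClosed K] (hq : 1 < q) {A B D : C}
    (h : ∀ n, tr (pw (R.fr B) n) = tr (pw (R.fr A) n) + tr (pw (R.fr D) n)) (i : ℤ) (α : K) :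
    R.m i B α = R.m i A α + R.m i D α := by
  by_cases hw : IsWeilNumber q i α
  · have h1 := R.chi_add h α
    rw [R.chi_eq hq A hw, R.chi_eq hq B hw, R.chi_eq hq D hw] at h1
    rcases Int.even_or_odd i with hi | hi
    · rw [Int.negOnePow_even _ hi] at h1
      simp only [Units.val_one, one_mul] at h1
      exact_mod_cast h1
    · rw [Int.negOnePow_odd _ hi] at h1
      simp only [Units.val_neg, Units.val_one, neg_mul, one_mul] at h1
      have : (R.m i B α : ℤ) = R.m i A α + R.m i D α := by linarith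
      exact_mod_cast this
  · have hz : ∀ M, R.m i M α = 0 := by
      intro M
      by_contra hc
      exact hw (R.weight_of_m hc)
    rw [hz, hz, hz]

lemma finrank_eq [IsAlgClosed K] (i : ℤ) (M : C) (S : Finset K) (hS : R.eigs M ⊆ S) :
    Module.finrank K ((R.H i).obj M) = ∑ α ∈ S, R.m i M α :=
  finrank_eq_sum_mult (R.frH i M) S (fun _ hα => hS (R.mem_eigs hα))

lemma finrank_add_of_tr [IsAlgClosed K] (hq : 1 < q) {A B D : C}
    (h : ∀ n, tr (pw (R.fr B) n) = tr (pw (R.fr A) n) + tr (pw (R.fr D) n)) (i : ℤ) :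
    Module.finrank K ((R.H i).obj B) =
      Module.finrank K ((R.H i).obj A) + Module.finrank K ((R.H i).obj D) := by
  classical
  rw [R.finrank_eq i A (R.eigs A ∪ R.eigs B ∪ R.eigs D) (by intro x hx; simp [hx]),
    R.finrank_eq i B (R.eigs A ∪ R.eigs B ∪ R.eigs D) (by intro x hx; simp [hx]),
    R.finrank_eq i D (R.eigs A ∪ R.eigs B ∪ R.eigs D) (by intro x hx; simp [hx]),
    ← Finset.sum_add_distrib]
  exact Finset.sum_congr rfl fun α _ => R.m_add_of_tr hq h i α

end FrobeniusCohomology

end Pool.Agent.Q227.AB
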