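import Pool.Agent.Q227.AB.Main4

/-!
# Permutations of tensor powers
-/

open CategoryTheory MonoidalCategory Limits

universe v u w

namespace Pool.Agent.Q227.AB

section

variable {C : Type u} [Category.{v} C] [MonoidalCategory C] [SymmetricCategory C]

lemma swapR_swapR (Y M : C) : swapR Y M ≫ swapR Y M = 𝟙 _ := by
  unfold swapR
  simp [← whiskerLeft_comp_assoc]

lemma swapR_naturality {Y Y' : C} (a : Y ⟶ Y') (M : C) :
    ((a ▷ M) ▷ M) ≫ swapR Y' M = swapR Y M ≫ ((a ▷ M) ▷ M) := by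
  unfold swapR
  simp only [Category.assoc]
  rw [associator_naturality_left_assoc, ← whisker_exchange_assoc]
  simp

lemma braid (Y M : C) : swapR (Y ⊗ M) M ≫ (swapR Y M ▷ M) ≫ swapR (Y ⊗ M) M =
    (swapR Y M ▷ M) ≫ swapR (Y ⊗ M) M ≫ (swapR Y M ▷ M) := by
  let Φ : ((Y ⊗ M) ⊗ M) ⊗ M ≅ Y ⊗ (M ⊗ (M ⊗ M)) :=
    α_ (Y ⊗ M) M M ≪≫ α_ Y M (M ⊗ M)
  have h1 : swapR (Y ⊗ M) M = Φ.hom ≫ (Y ◁ (M ◁ (β_ M M).hom)) ≫ Φ.inv := by
    unfold swapR
    simp only [Φ, Iso.trans_hom, Iso.trans_inv]
    monoidal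
  have h2 : swapR Y M ▷ M = Φ.hom ≫
      (Y ◁ ((α_ M M M).inv ≫ ((β_ M M).hom ▷ M) ≫ (α_ M M M).hom)) ≫ Φ.inv := by
    unfold swapR
    simp only [Φ, Iso.trans_hom, Iso.trans_inv]
    monoidal
  rw [h1, h2]
  simp only [Category.assoc, Iso.inv_hom_id_assoc, ← whiskerLeft_comp_assoc]
  have yb := BraidedCategory.yang_baxter M M M
  congr 2
  rw [yb]

lemma cyc_zero (M : C) (n : ℕ) : cyc M n 0 = 𝟙 _ := by
  cases n <;> rfl

lemma cyc_succ (M : C) (n p : ℕ) :
    cyc M (n + 1) (p + 1) = swapR (tpow M n) M ≫ (cyc M n p ▷ M) := rfl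

/-- Moving the last two factors to the left in the two possible ways. -/
lemma cyc_exchange (M : C) : ∀ (n r p : ℕ), p ≤ r → r ≤ n →
    swapR (tpow M n) M ≫ (cyc M n r ▷ M) ≫ cyc M (n + 1) p =
      (cyc M n p ▷ M) ≫ cyc M (n + 1) (r + 1) := by
  intro n
  induction n with
  | zero =>
    intro r p hpr hr
    obtain rfl : r = 0 := by omega
    obtain rfl : p = 0 := by omega
    rw [cyc_zero, cyc_succ, cyc_zero]
    erw [Category.comp_id, id_whiskerRight, Category.id_comp]
  | succ n ih =>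
    intro r p hpr hr
    cases p with
    | zero =>
      rw [cyc_zero, cyc_zero, cyc_succ]
      erw [Category.comp_id, id_whiskerRight, Category.id_comp]
    | succ p =>
      obtain ⟨r, rfl⟩ : ∃ r', r = r' + 1 := ⟨r - 1, by omega⟩
      have h := ih r p (by omega) (by omega)
      have e1 : swapR (tpow M (n + 1)) M ≫ (cyc M (n + 1) (r + 1) ▷ M) ≫
          cyc M (n + 1 + 1) (p + 1) =
          swapR (tpow M n ⊗ M) M ≫ (swapR (tpow M n) M ▷ M) ≫ ((cyc M n r ▷ M) ▷ M) ≫
            swapR (tpow M n ⊗ M) M ≫ (cyc M (n + 1) p ▷ M) := by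
        rw [cyc_succ M (n + 1) p, cyc_succ M n r, comp_whiskerRight, Category.assoc]
      have e2 : (cyc M (n + 1) (p + 1) ▷ M) ≫ cyc M (n + 1 + 1) (r + 1 + 1) =
          (swapR (tpow M n) M ▷ M) ≫ ((cyc M n p ▷ M) ▷ M) ≫ swapR (tpow M n ⊗ M) M ≫
            (cyc M (n + 1) (r + 1) ▷ M) := by
        rw [cyc_succ M (n + 1) (r + 1), cyc_succ M n p, comp_whiskerRight, Category.assoc]
      rw [e1, e2]
      have n1 : ((cyc M n r ▷ M) ▷ M) ≫ swapR (tpow M n ⊗ M) M =
          swapR (tpow M n ⊗ M) M ≫ ((cyc M n r ▷ M) ▷ M) := swapR_naturality (cyc M n r) M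
      have n2 : ((cyc M n p ▷ M) ▷ M) ≫ swapR (tpow M n ⊗ M) M =
          swapR (tpow M n ⊗ M) M ≫ ((cyc M n p ▷ M) ▷ M) := swapR_naturality (cyc M n p) M
      rw [reassoc_of% n1, reassoc_of% n2, reassoc_of% braid (tpow M n) M]
      congr 2
      rw [← comp_whiskerRight, ← comp_whiskerRight]
      erw [← comp_whiskerRight, h]

lemma cyc_exchange' (M : C) (n r p : ℕ) (hpr : p ≤ r) (hr : r ≤ n) :
    swapR (tpow M n) M ≫ (cyc M n p ▷ M) ≫ cyc M (n + 1) (r + 1) =
      (cyc M n r ▷ M) ≫ cyc M (n + 1) p := by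
  have h := cyc_exchange M n r p hpr hr
  rw [← h, reassoc_of% swapR_swapR (tpow M n) M]

lemma zsmul_whiskerRight [Preadditive C] [MonoidalPreadditive C] {X Y : C} (f : X ⟶ Y) (s : ℤ)
    (Z : C) : (s • f) ▷ Z = s • (f ▷ Z) :=
  (tensorRight Z).map_zsmul

lemma sum_whiskerRight' [Preadditive C] [MonoidalPreadditive C] {X Y : C} {ι : Type*}
    (t : Finset ι) (f : ι → (X ⟶ Y)) (Z : C) : (∑ i ∈ t, f i) ▷ Z = ∑ i ∈ t, (f i ▷ Z) :=
  (tensorRight Z).map_sum _ _

/-- The transpositions of two neighbouring factors. -/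
inductive IsTr (M : C) : ∀ n : ℕ, (tpow M n ⟶ tpow M n) → Prop
  | last (n : ℕ) : IsTr M (n + 2) (swapR (tpow M n) M)
  | whisk (n : ℕ) (t : tpow M n ⟶ tpow M n) : IsTr M n t → IsTr M (n + 1) (t ▷ M)

section

variable [Preadditive C] [MonoidalPreadditive C]

lemma permSum_zero (s : ℤ) (M : C) : permSum s M 0 = 𝟙 _ := rfl

lemma permSum_succ (s : ℤ) (M : C) (n : ℕ) : permSum s M (n + 1) =
    (permSum s M n ▷ M) ≫ ∑ p ∈ Finset.range (n + 1), s ^ p • cyc M n p := rfl

/-- The double sum in `permSum (n + 2)`. -/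
lemma double_swap (s : ℤ) (hs : s * s = 1) (M : C) (n : ℕ) :
    swapR (tpow M n) M ≫ ((∑ r ∈ Finset.range (n + 1), s ^ r • cyc M n r) ▷ M) ≫
        (∑ p ∈ Finset.range (n + 2), s ^ p • cyc M (n + 1) p) =
      s • (((∑ r ∈ Finset.range (n + 1), s ^ r • cyc M n r) ▷ M) ≫
        (∑ p ∈ Finset.range (n + 2), s ^ p • cyc M (n + 1) p)) := by
  have hD : ((∑ r ∈ Finset.range (n + 1), s ^ r • cyc M n r) ▷ M) ≫
        (∑ p ∈ Finset.range (n + 2), s ^ p • cyc M (n + 1) p) =
      ∑ x ∈ Finset.range (n + 1) ×ˢ Finset.range (n + 2),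
        s ^ (x.1 + x.2) • ((cyc M n x.1 ▷ M) ≫ cyc M (n + 1) x.2) := by
    rw [sum_whiskerRight', Preadditive.sum_comp, Finset.sum_product]
    apply Finset.sum_congr rfl
    intro r _
    rw [Preadditive.comp_sum]
    apply Finset.sum_congr rfl
    intro p _
    rw [zsmul_whiskerRight, Preadditive.zsmul_comp, Preadditive.comp_zsmul, smul_smul, pow_add]
  rw [hD, Preadditive.comp_sum, Finset.smul_sum]
  let σ : ℕ × ℕ → ℕ × ℕ := fun x => if x.2 ≤ x.1 then (x.2, x.1 + 1) else (x.2 - 1, x.1)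
  have hmem : ∀ x ∈ Finset.range (n + 1) ×ˢ Finset.range (n + 2),
      σ x ∈ Finset.range (n + 1) ×ˢ Finset.range (n + 2) := by
    rintro ⟨r, p⟩ hx
    simp only [Finset.mem_product, Finset.mem_range] at hx
    simp only [σ]
    split_ifs with h
    · simp only [Finset.mem_product, Finset.mem_range]
      omega
    · simp only [Finset.mem_product, Finset.mem_range]
      omega
  have hinv : ∀ x ∈ Finset.range (n + 1) ×ˢ Finset.range (n + 2), σ (σ x) = x := by
    rintro ⟨r, p⟩ hx
    simp only [Finset.mem_product, Finset.mem_range] at hx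
    simp only [σ]
    split_ifs with h h1 h2
    · exfalso; simp only at h1; omega
    · simp
    · have h' : ¬ p ≤ r := h
      simp only at h2
      simp only [Prod.mk.injEq]
      exact ⟨trivial, by omega⟩
    · exfalso; simp only at h2; omega
  refine Finset.sum_nbij' σ σ hmem hmem hinv hinv ?_
  rintro ⟨r, p⟩ hx
  simp only [Finset.mem_product, Finset.mem_range] at hx
  rw [Preadditive.comp_zsmul]
  simp only [σ]
  split_ifs with h
  · rw [cyc_exchange M n r p h (by omega)]
    simp only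
    rw [smul_smul]
    congr 1
    rw [← add_assoc, pow_succ, add_comm p r, mul_comm, mul_assoc, hs, mul_one]
  · obtain ⟨p, rfl⟩ : ∃ p', p = p' + 1 := ⟨p - 1, by omega⟩
    rw [cyc_exchange' M n p r (by omega) (by omega)]
    simp only [Nat.add_sub_cancel]
    rw [smul_smul]
    congr 1
    rw [← add_assoc, pow_succ, add_comm p r, mul_comm]

lemma tr_permSum (s : ℤ) (hs : s * s = 1) (M : C) {n : ℕ} {t : tpow M n ⟶ tpow M n}
    (ht : IsTr M n t) : t ≫ permSum s M n = s • permSum s M n := by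
  induction ht with
  | last n =>
    rw [permSum_succ s M (n + 1), permSum_succ s M n, comp_whiskerRight, Category.assoc,
      ← reassoc_of% swapR_naturality (permSum s M n) M, double_swap s hs,
      Preadditive.comp_zsmul]
  | whisk n t _ ih =>
    rw [permSum_succ, ← Category.assoc, ← comp_whiskerRight, ih, zsmul_whiskerRight,
      Preadditive.zsmul_comp]

lemma cyc_permSum (s : ℤ) (hs : s * s = 1) (M : C) : ∀ (n p : ℕ), p ≤ n →
    cyc M n p ≫ permSum s M (n + 1) = s ^ p • permSum s M (n + 1) := by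
  intro n
  induction n with
  | zero =>
    intro p hp
    obtain rfl : p = 0 := by omega
    rw [cyc_zero, Category.id_comp, pow_zero, one_smul]
  | succ n ih =>
    intro p hp
    cases p with
    | zero => rw [cyc_zero, Category.id_comp, pow_zero, one_smul]
    | succ p =>
      have h1 : (cyc M n p ▷ M) ≫ permSum s M (n + 1 + 1) = s ^ p • permSum s M (n + 1 + 1) := by
        rw [permSum_succ s M (n + 1), ← Category.assoc, ← comp_whiskerRight, ih p (by omega),
          zsmul_whiskerRight, Preadditive.zsmul_comp]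
      rw [cyc_succ, Category.assoc, h1, Preadditive.comp_zsmul,
        tr_permSum s hs M (IsTr.last n), smul_smul, pow_succ]

/-- `permSum / n!` is an idempotent. -/
lemma permSum_sq (s : ℤ) (hs : s * s = 1) (M : C) (n : ℕ) :
    permSum s M n ≫ permSum s M n = (n.factorial : ℤ) • permSum s M n := by
  induction n with
  | zero => simp [permSum]
  | succ n ih =>
    have h1 : (∑ p ∈ Finset.range (n + 1), s ^ p • cyc M n p) ≫ permSum s M (n + 1) =
        ((n : ℤ) + 1) • permSum s M (n + 1) := by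
      rw [Preadditive.sum_comp]
      have h2 : ∀ p ∈ Finset.range (n + 1), (s ^ p • cyc M n p) ≫ permSum s M (n + 1) =
          permSum s M (n + 1) := by
        intro p hp
        rw [Preadditive.zsmul_comp, cyc_permSum s hs M n p
          (Nat.lt_succ_iff.1 (Finset.mem_range.1 hp)), smul_smul, ← mul_pow, hs, one_pow,
          one_smul]
      rw [Finset.sum_congr rfl h2, Finset.sum_const, Finset.card_range]
      rw [← natCast_zsmul]
      push_cast
      rfl
    have h3 : (permSum s M n ▷ M) ≫ permSum s M (n + 1) =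
        (n.factorial : ℤ) • permSum s M (n + 1) := by
      rw [permSum_succ, ← Category.assoc, ← comp_whiskerRight, ih, zsmul_whiskerRight,
        Preadditive.zsmul_comp]
    conv_lhs => rw [permSum_succ s M n, Category.assoc, ← permSum_succ s M n]
    rw [h1, Preadditive.comp_zsmul, h3, smul_smul, Nat.factorial_succ]
    push_cast
    rfl

end

end

end Pool.Agent.Q227.AB
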