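import Pool.Agent.Q227.AB.Main3

/-!
# Polynomials in Frobenius
-/

open CategoryTheory MonoidalCategory Limits Polynomial

universe v u w

namespace Pool.Agent.Q227.AB

/-- All complex roots of `P` have absolute value `q ^ (i / 2)`. -/
def OfWeight (q : ℕ) (i : ℤ) (P : ℚ[X]) : Prop :=
  ∀ z : ℂ, Polynomial.aeval z P = 0 → ‖z‖ = (q : ℝ) ^ ((i : ℝ) / 2)

lemma OfWeight.coprime {q : ℕ} (hq : 1 < q) {i j : ℤ} (hij : i ≠ j) {P Q : ℚ[X]}
    (hP : OfWeight q i P) (hQ : OfWeight q j Q) : IsCoprime P Q := by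
  refine (Polynomial.isCoprime_iff_aeval_ne_zero_of_isAlgClosed ℚ ℂ P Q).2 ?_
  intro z
  by_contra hc
  push_neg at hc
  have h := (hP z hc.1).symm.trans (hQ z hc.2)
  have hq' : (1 : ℝ) < q := by exact_mod_cast hq
  have h2 := (Real.rpow_right_inj (by positivity) hq'.ne').1 h
  have h3 : (i : ℝ) = j := by linarith
  exact hij (by exact_mod_cast h3)

lemma OfWeight.one {q : ℕ} {i : ℤ} : OfWeight q i 1 := by
  intro z hz
  simp at hz

lemma OfWeight.prod {q : ℕ} {i : ℤ} {ι : Type*} (s : Finset ι) (f : ι → ℚ[X])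
    (h : ∀ a ∈ s, OfWeight q i (f a)) : OfWeight q i (∏ a ∈ s, f a) := by
  intro z hz
  rw [map_prod, Finset.prod_eq_zero_iff] at hz
  obtain ⟨a, ha, h1⟩ := hz
  exact h a ha z h1

lemma OfWeight.pow {q : ℕ} {i : ℤ} {P : ℚ[X]} (h : OfWeight q i P) (n : ℕ) :
    OfWeight q i (P ^ n) := by
  intro z hz
  rw [map_pow] at hz
  exact h z (eq_zero_of_pow_eq_zero hz)

section

variable {K : Type w} [Field K] [IsAlgClosed K] {V : Type*} [AddCommGroup V] [Module K V]
  [FiniteDimensional K V]

lemma multiset_dvd (Q : K[X]) (s : Multiset K) (h : ∀ a ∈ s, Q.eval a = 0) :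
    (s.map (fun a => X - C a)).prod ∣ Q ^ (Multiset.card s) := by
  induction s using Multiset.induction_on with
  | empty => simp
  | cons a s ih =>
    rw [Multiset.map_cons, Multiset.prod_cons, Multiset.card_cons, pow_succ, mul_comm]
    apply mul_dvd_mul
    · exact ih fun b hb => h b (Multiset.mem_cons_of_mem hb)
    · exact Polynomial.dvd_iff_isRoot.2 (h a (Multiset.mem_cons_self a s))

/-- A polynomial vanishing at all eigenvalues of `φ` is nilpotent at `φ`. -/
lemma aeval_pow_eq_zero (φ : Module.End K V) (Q : K[X])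
    (h : ∀ a, φ.HasEigenvalue a → Q.eval a = 0) (n : ℕ) (hn : Module.finrank K V ≤ n) :
    Polynomial.aeval φ (Q ^ n) = 0 := by
  have hs : φ.charpoly.Splits := IsAlgClosed.splits _
  have h1 : φ.charpoly ∣ Q ^ (Multiset.card φ.charpoly.roots) := by
    have h2 := hs.eq_prod_roots
    rw [φ.charpoly_monic.leadingCoeff, C_1, one_mul] at h2
    have h3 := multiset_dvd Q φ.charpoly.roots ?_
    · rwa [← h2] at h3
    · intro a ha
      apply h a
      rw [Module.End.hasEigenvalue_iff_isRoot_charpoly]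
      exact (Polynomial.mem_roots'.1 ha).2
  have h2 : Multiset.card φ.charpoly.roots ≤ n := by
    refine (Polynomial.card_roots' _).trans ?_
    rwa [LinearMap.charpoly_natDegree]
  obtain ⟨R, hR⟩ := h1.trans (pow_dvd_pow Q h2)
  rw [hR, map_mul, LinearMap.aeval_self_charpoly, zero_mul]

end

variable {C : Type u} [Category.{v} C]

lemma end_pow [Preadditive C] {M : C} (f : End M) (n : ℕ) : f ^ n = pw (C := C) f n := by
  induction n with
  | zero => rfl
  | succ n ih =>
    rw [pow_succ, ih]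
    show f ≫ pw f n = pw f n ≫ f
    exact pw_comp_comm f n

section

variable [Preadditive C] [Linear ℚ C]
    [MonoidalCategory C] [SymmetricCategory C] [RightRigidCategory C]
    {K : Type w} [Field K] [CharZero K] {q : ℕ}

namespace FrobeniusCohomology

variable (R : FrobeniusCohomology C K q)

/-- The Frobenius endomorphism as an element of the ring `End M`. -/
def frE (M : C) : End M := R.fr M

/-- The polynomial `P` evaluated at the Frobenius endomorphism of `M`. -/
noncomputable def ev (M : C) (P : ℚ[X]) : M ⟶ M :=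
  Polynomial.aeval (R.frE M) P

lemma ev_add (M : C) (P Q : ℚ[X]) : R.ev M (P + Q) = R.ev M P + R.ev M Q := by
  unfold ev
  rw [map_add]

lemma ev_mul (M : C) (P Q : ℚ[X]) : R.ev M (P * Q) = R.ev M P ≫ R.ev M Q := by
  unfold ev
  rw [mul_comm, map_mul]
  rfl

lemma ev_one (M : C) : R.ev M 1 = 𝟙 M := by
  unfold ev
  rw [map_one]
  rfl

lemma ev_zero (M : C) : R.ev M 0 = 0 := by
  unfold ev
  rw [map_zero]

lemma ev_sum (M : C) {ι : Type*} (s : Finset ι) (f : ι → ℚ[X]) :
    R.ev M (∑ i ∈ s, f i) = ∑ i ∈ s, R.ev M (f i) := by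
  classical
  induction s using Finset.induction_on with
  | empty => simp [R.ev_zero]
  | insert a s ha ih =>
    rw [Finset.sum_insert ha, Finset.sum_insert ha, ev_add, ih]

lemma ev_monomial (M : C) (n : ℕ) (c : ℚ) : R.ev M (monomial n c) = c • pw (R.fr M) n := by
  unfold ev
  rw [Polynomial.aeval_monomial, ← Algebra.smul_def, end_pow]
  rfl

lemma ev_pow (M : C) (P : ℚ[X]) (n : ℕ) : R.ev M (P ^ n) = pw (R.ev M P) n := by
  induction n with
  | zero => simp [pw, R.ev_one]
  | succ n ih =>
    rw [pow_succ, ev_mul, ih]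
    rfl

lemma ev_comm (M : C) (P Q : ℚ[X]) : R.ev M P ≫ R.ev M Q = R.ev M Q ≫ R.ev M P := by
  rw [← ev_mul, ← ev_mul, mul_comm]

lemma ev_naturality {M N : C} (f : M ⟶ N) (P : ℚ[X]) : f ≫ R.ev N P = R.ev M P ≫ f := by
  induction P using Polynomial.induction_on' with
  | add P Q hP hQ =>
    rw [ev_add, ev_add, Preadditive.comp_add, Preadditive.add_comp, hP, hQ]
  | monomial n c =>
    rw [ev_monomial, ev_monomial, Linear.comp_smul, Linear.smul_comp, R.pw_fr_naturality f n]

lemma map_ev (i : ℤ) (M : C) (P : ℚ[X]) :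
    ((R.H i).map (R.ev M P)).hom = Polynomial.aeval (R.frH i M) (P.map (algebraMap ℚ K)) := by
  have := R.additive i
  induction P using Polynomial.induction_on' with
  | add P Q hP hQ =>
    rw [ev_add, Functor.map_add, ModuleCat.hom_add, hP, hQ, Polynomial.map_add, map_add]
  | monomial n c =>
    rw [ev_monomial, Polynomial.map_monomial, Polynomial.aeval_monomial, ← Algebra.smul_def]
    have h1 : (R.H i).map (c • pw (R.fr M) n) = (c : K) • (R.H i).map (pw (R.fr M) n) := by
      have := map_ratCast_smul (R.H i).mapAddHom ℚ K c (pw (R.fr M) n)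
      simpa using this
    rw [h1, ModuleCat.hom_smul, R.map_pw]
    rfl

end FrobeniusCohomology

end

end Pool.Agent.Q227.AB
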