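import Pool.Agent.Q227.AB.Perm

/-!
# Partial traces
-/

open CategoryTheory MonoidalCategory Limits

universe v u w

namespace Pool.Agent.Q227.AB

section

variable {C : Type u} [Category.{v} C] [MonoidalCategory C] [SymmetricCategory C]

lemma slide {A A' : C} (e : A ⊗ A' ⟶ 𝟙_ C) (B : C) :
    (A ◁ (β_ B A').hom) ⊗≫ (e ▷ B) ⊗≫ 𝟙 B =
      𝟙 _ ⊗≫ ((β_ A B).hom ▷ A') ⊗≫ (B ◁ e) ⊗≫ 𝟙 B := by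
  calc (A ◁ (β_ B A').hom) ⊗≫ (e ▷ B) ⊗≫ 𝟙 B
      = (A ◁ (β_ B A').hom) ⊗≫ ((e ▷ B) ≫ (β_ (𝟙_ C) B).hom) ⊗≫ 𝟙 B := by
        rw [braiding_tensorUnit_left]
        monoidal
    _ = (A ◁ (β_ B A').hom) ⊗≫ ((β_ (A ⊗ A') B).hom ≫ (B ◁ e)) ⊗≫ 𝟙 B := by
        rw [BraidedCategory.braiding_naturality_left]
    _ = 𝟙 _ ⊗≫ (A ◁ ((β_ B A').hom ≫ (β_ A' B).hom)) ⊗≫ ((β_ A B).hom ▷ A') ⊗≫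
          (B ◁ e) ⊗≫ 𝟙 B := by
        rw [BraidedCategory.braiding_tensor_left_hom]
        monoidal
    _ = _ := by
        rw [SymmetricCategory.symmetry]
        monoidal

/-- The evaluation of a tensor product, after the braiding. -/
lemma tensor_eval {A A' B B' : C} (εA : A' ⊗ A ⟶ 𝟙_ C) (εB : B' ⊗ B ⟶ 𝟙_ C) :
    (β_ (A ⊗ B) (B' ⊗ A')).hom ≫ (𝟙 _ ⊗≫ B' ◁ (εA ▷ B) ⊗≫ εB) =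
      𝟙 _ ⊗≫ (A ◁ ((β_ B B').hom ≫ εB) ▷ A') ⊗≫ ((β_ A A').hom ≫ εA) := by
  calc (β_ (A ⊗ B) (B' ⊗ A')).hom ≫ (𝟙 _ ⊗≫ B' ◁ (εA ▷ B) ⊗≫ εB)
      = 𝟙 _ ⊗≫ ((β_ (A ⊗ B) B').hom ▷ A') ⊗≫
          B' ◁ ((A ◁ (β_ B A').hom) ⊗≫ (((β_ A A').hom ≫ εA) ▷ B) ⊗≫ 𝟙 B) ⊗≫ εB := by
        rw [BraidedCategory.braiding_tensor_right_hom,
          BraidedCategory.braiding_tensor_left_hom A B A']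
        monoidal
    _ = 𝟙 _ ⊗≫ ((β_ (A ⊗ B) B').hom ▷ A') ⊗≫
          B' ◁ (𝟙 _ ⊗≫ ((β_ A B).hom ▷ A') ⊗≫ (B ◁ ((β_ A A').hom ≫ εA)) ⊗≫ 𝟙 B) ⊗≫ εB := by
        rw [slide]
    _ = 𝟙 _ ⊗≫ (A ◁ (β_ B B').hom ▷ A') ⊗≫ ((β_ A (B' ⊗ B)).hom ▷ A') ⊗≫
          (((B' ⊗ B) ◁ ((β_ A A').hom ≫ εA)) ≫ (εB ▷ 𝟙_ C)) ⊗≫ 𝟙 (𝟙_ C) := by
        rw [BraidedCategory.braiding_tensor_left_hom A B B',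
          BraidedCategory.braiding_tensor_right_hom A B' B]
        monoidal
    _ = 𝟙 _ ⊗≫ (A ◁ (β_ B B').hom ▷ A') ⊗≫ ((β_ A (B' ⊗ B)).hom ▷ A') ⊗≫
          ((εB ▷ (A ⊗ A')) ≫ (𝟙_ C ◁ ((β_ A A').hom ≫ εA))) ⊗≫ 𝟙 (𝟙_ C) := by
        rw [whisker_exchange]
    _ = 𝟙 _ ⊗≫ (A ◁ (β_ B B').hom ▷ A') ⊗≫ (((β_ A (B' ⊗ B)).hom ≫ (εB ▷ A)) ▷ A') ⊗≫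
          ((β_ A A').hom ≫ εA) := by
        monoidal
    _ = 𝟙 _ ⊗≫ (A ◁ (β_ B B').hom ▷ A') ⊗≫ (((A ◁ εB) ≫ (β_ A (𝟙_ C)).hom) ▷ A') ⊗≫
          ((β_ A A').hom ≫ εA) := by
        rw [BraidedCategory.braiding_naturality_right]
    _ = _ := by
        rw [braiding_tensorUnit_right]
        monoidal

/-- The partial trace over the last factor. -/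
def ptr {X M : C} [HasRightDual M] (h : X ⊗ M ⟶ X ⊗ M) : X ⟶ X :=
  𝟙 X ⊗≫ (X ◁ η_ M (Mᘁ)) ⊗≫ (h ▷ Mᘁ) ⊗≫ (X ◁ ((β_ M (Mᘁ)).hom ≫ ε_ M (Mᘁ))) ⊗≫ 𝟙 X

lemma tr_indep {X : C} (d₁ d₂ : HasRightDual X) (f : X ⟶ X) :
    @tr C _ _ _ X d₁ f = @tr C _ _ _ X d₂ f := by
  have h := @tr_comm C _ _ _ X X d₁ d₂ f (𝟙 X)
  rwa [Category.comp_id, Category.id_comp] at h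

lemma tr_tensor_aux {X M : C} [HasRightDual X] [HasRightDual M] (h : X ⊗ M ⟶ X ⊗ M) :
    @tr C _ _ _ (X ⊗ M) hasRightDualTensor h = tr (ptr h) := by
  unfold tr ptr
  show η_ (X ⊗ M) (Mᘁ ⊗ Xᘁ) ≫ (h ▷ (Mᘁ ⊗ Xᘁ)) ≫ (β_ (X ⊗ M) (Mᘁ ⊗ Xᘁ)).hom ≫
    ε_ (X ⊗ M) (Mᘁ ⊗ Xᘁ) = _
  rw [ExactPairing.tensor_coevaluation, ExactPairing.tensor_evaluation, tensor_eval]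
  monoidal

lemma tr_tensor {X M : C} [HasRightDual X] [HasRightDual M] (d : HasRightDual (X ⊗ M))
    (h : X ⊗ M ⟶ X ⊗ M) : tr h = tr (ptr h) := by
  rw [← tr_tensor_aux]
  exact tr_indep _ _ _

lemma ptr_comp_right {X M : C} [HasRightDual M] (h : X ⊗ M ⟶ X ⊗ M) (b : X ⟶ X) :
    ptr (h ≫ (b ▷ M)) = ptr h ≫ b := by
  unfold ptr
  calc 𝟙 X ⊗≫ (X ◁ η_ M (Mᘁ)) ⊗≫ ((h ≫ (b ▷ M)) ▷ Mᘁ) ⊗≫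
        (X ◁ ((β_ M (Mᘁ)).hom ≫ ε_ M (Mᘁ))) ⊗≫ 𝟙 X
      = 𝟙 X ⊗≫ (X ◁ η_ M (Mᘁ)) ⊗≫ (h ▷ Mᘁ) ⊗≫ ((b ▷ (M ⊗ Mᘁ)) ≫
        (X ◁ ((β_ M (Mᘁ)).hom ≫ ε_ M (Mᘁ)))) ⊗≫ 𝟙 X := by monoidal
    _ = 𝟙 X ⊗≫ (X ◁ η_ M (Mᘁ)) ⊗≫ (h ▷ Mᘁ) ⊗≫ (
        (X ◁ ((β_ M (Mᘁ)).hom ≫ ε_ M (Mᘁ))) ≫ (b ▷ 𝟙_ C)) ⊗≫ 𝟙 X := by
        rw [whisker_exchange]
    _ = _ := by monoidal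

lemma ptr_comp_left {X M : C} [HasRightDual M] (h : X ⊗ M ⟶ X ⊗ M) (a : X ⟶ X) :
    ptr ((a ▷ M) ≫ h) = a ≫ ptr h := by
  unfold ptr
  calc 𝟙 X ⊗≫ (X ◁ η_ M (Mᘁ)) ⊗≫ (((a ▷ M) ≫ h) ▷ Mᘁ) ⊗≫
        (X ◁ ((β_ M (Mᘁ)).hom ≫ ε_ M (Mᘁ))) ⊗≫ 𝟙 X
      = 𝟙 X ⊗≫ ((X ◁ η_ M (Mᘁ)) ≫ (a ▷ (M ⊗ Mᘁ))) ⊗≫ (h ▷ Mᘁ) ⊗≫
        (X ◁ ((β_ M (Mᘁ)).hom ≫ ε_ M (Mᘁ))) ⊗≫ 𝟙 X := by monoidal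
    _ = 𝟙 X ⊗≫ ((a ▷ 𝟙_ C) ≫ (X ◁ η_ M (Mᘁ))) ⊗≫ (h ▷ Mᘁ) ⊗≫
        (X ◁ ((β_ M (Mᘁ)).hom ≫ ε_ M (Mᘁ))) ⊗≫ 𝟙 X := by
        rw [whisker_exchange]
    _ = _ := by monoidal

lemma ptr_whiskerLeft {X M : C} [HasRightDual M] (f : M ⟶ M) :
    ptr (X ◁ f) = 𝟙 X ⊗≫ (X ◁ tr f) ⊗≫ 𝟙 X := by
  unfold ptr tr
  monoidal

/-- The trace of a transposition: the loop of the braiding is the identity. -/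
lemma loop_braiding (M : C) [HasRightDual M] :
    𝟙 M ⊗≫ (M ◁ η_ M (Mᘁ)) ⊗≫ ((β_ M M).hom ▷ Mᘁ) ⊗≫ (M ◁ ((β_ M (Mᘁ)).hom ≫ ε_ M (Mᘁ))) ⊗≫
      𝟙 M = 𝟙 M := by
  calc 𝟙 M ⊗≫ (M ◁ η_ M (Mᘁ)) ⊗≫ ((β_ M M).hom ▷ Mᘁ) ⊗≫
        (M ◁ ((β_ M (Mᘁ)).hom ≫ ε_ M (Mᘁ))) ⊗≫ 𝟙 M
      = 𝟙 M ⊗≫ ((M ◁ η_ M (Mᘁ)) ≫ (β_ M (M ⊗ Mᘁ)).hom) ⊗≫ (M ◁ ε_ M (Mᘁ)) ⊗≫ 𝟙 M := by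
        rw [BraidedCategory.braiding_tensor_right_hom]
        monoidal
    _ = 𝟙 M ⊗≫ ((β_ M (𝟙_ C)).hom ≫ (η_ M (Mᘁ) ▷ M)) ⊗≫ (M ◁ ε_ M (Mᘁ)) ⊗≫ 𝟙 M := by
        rw [BraidedCategory.braiding_naturality_right]
    _ = 𝟙 M ⊗≫ (η_ M (Mᘁ) ▷ M ⊗≫ M ◁ ε_ M (Mᘁ)) ⊗≫ 𝟙 M := by
        rw [braiding_tensorUnit_right]
        monoidal
    _ = 𝟙 M := by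
        rw [ExactPairing.evaluation_coevaluation'']
        monoidal

lemma ptr_swapR {Y M : C} [HasRightDual M] (f : M ⟶ M) :
    ptr (((Y ⊗ M) ◁ f) ≫ swapR Y M) = Y ◁ f := by
  calc ptr (((Y ⊗ M) ◁ f) ≫ swapR Y M)
      = 𝟙 (Y ⊗ M) ⊗≫ Y ◁ (𝟙 M ⊗≫ (M ◁ η_ M (Mᘁ)) ⊗≫ (((M ◁ f) ≫ (β_ M M).hom) ▷ Mᘁ) ⊗≫
        (M ◁ ((β_ M (Mᘁ)).hom ≫ ε_ M (Mᘁ))) ⊗≫ 𝟙 M) ⊗≫ 𝟙 (Y ⊗ M) := by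
        unfold ptr swapR
        monoidal
    _ = 𝟙 (Y ⊗ M) ⊗≫ Y ◁ (𝟙 M ⊗≫ (M ◁ η_ M (Mᘁ)) ⊗≫ (((β_ M M).hom ≫ (f ▷ M)) ▷ Mᘁ) ⊗≫
        (M ◁ ((β_ M (Mᘁ)).hom ≫ ε_ M (Mᘁ))) ⊗≫ 𝟙 M) ⊗≫ 𝟙 (Y ⊗ M) := by
        rw [BraidedCategory.braiding_naturality_right]
    _ = 𝟙 (Y ⊗ M) ⊗≫ Y ◁ (𝟙 M ⊗≫ (M ◁ η_ M (Mᘁ)) ⊗≫ ((β_ M M).hom ▷ Mᘁ) ⊗≫ ((f ▷ (M ⊗ Mᘁ)) ≫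
        (M ◁ ((β_ M (Mᘁ)).hom ≫ ε_ M (Mᘁ)))) ⊗≫ 𝟙 M) ⊗≫ 𝟙 (Y ⊗ M) := by monoidal
    _ = 𝟙 (Y ⊗ M) ⊗≫ Y ◁ (𝟙 M ⊗≫ (M ◁ η_ M (Mᘁ)) ⊗≫ ((β_ M M).hom ▷ Mᘁ) ⊗≫ (
        (M ◁ ((β_ M (Mᘁ)).hom ≫ ε_ M (Mᘁ))) ≫ (f ▷ 𝟙_ C)) ⊗≫ 𝟙 M) ⊗≫ 𝟙 (Y ⊗ M) := by
        rw [whisker_exchange]
    _ = 𝟙 (Y ⊗ M) ⊗≫ Y ◁ ((𝟙 M ⊗≫ (M ◁ η_ M (Mᘁ)) ⊗≫ ((β_ M M).hom ▷ Mᘁ) ⊗≫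
        (M ◁ ((β_ M (Mᘁ)).hom ≫ ε_ M (Mᘁ))) ⊗≫ 𝟙 M) ≫ f) ⊗≫ 𝟙 (Y ⊗ M) := by monoidal
    _ = Y ◁ f := by
        rw [loop_braiding]
        monoidal

end

end Pool.Agent.Q227.AB
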