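import Pool.Agent.Q227.AB.Defs

/-!
# Exactness of the tensor product and additivity of traces
-/

open CategoryTheory MonoidalCategory Limits

universe v u w

namespace Pool.Agent.Q227.AB

variable {C : Type u} [Category.{v} C] [MonoidalCategory C] [SymmetricCategory C]
  [RightRigidCategory C]

lemma mono_whiskerRight {X Y : C} (f : X ⟶ Y) [Mono f] (Z Z' : C) [ExactPairing Z Z'] :
    Mono (f ▷ Z') := by
  have := (tensorRightAdjunction Z Z').isRightAdjoint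
  exact (inferInstance : Mono ((tensorRight Z').map f))

lemma epi_whiskerRight {X Y : C} (f : X ⟶ Y) [Epi f] (Z : C) : Epi (f ▷ Z) := by
  have := (tensorRightAdjunction Z (Zᘁ)).isLeftAdjoint
  exact (inferInstance : Epi ((tensorRight Z).map f))

lemma mono_whiskerRight' {X Y : C} (f : X ⟶ Y) [Mono f] (Z : C) : Mono (f ▷ Z) := by
  let e : ExactPairing (Zᘁ) Z := BraidedCategory.exactPairing_swap Z (Zᘁ)
  exact mono_whiskerRight f (Zᘁ) Z

lemma whiskerLeft_eq {X Y : C} (f : X ⟶ Y) (Z : C) :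
    Z ◁ f = (β_ Z X).hom ≫ (f ▷ Z) ≫ (β_ Z Y).inv := by
  simp

lemma mono_whiskerLeft {X Y : C} (f : X ⟶ Y) [Mono f] (Z : C) : Mono (Z ◁ f) := by
  have := mono_whiskerRight' f Z
  rw [whiskerLeft_eq]
  infer_instance

lemma epi_whiskerLeft {X Y : C} (f : X ⟶ Y) [Epi f] (Z : C) : Epi (Z ◁ f) := by
  have := epi_whiskerRight f Z
  rw [whiskerLeft_eq]
  infer_instance

variable [Abelian C] [MonoidalPreadditive C]

lemma mate_comp {X Y Z : C} (f : X ⟶ Y) (g : Y ⟶ Z) : gᘁ ≫ fᘁ = (f ≫ g)ᘁ :=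
  (comp_rightAdjointMate).symm

lemma mate_zero {X Y : C} : (0 : X ⟶ Y)ᘁ = 0 := by
  simp [rightAdjointMate]

lemma mono_mate {X Y : C} (p : X ⟶ Y) [Epi p] : Mono (pᘁ) := by
  refine Preadditive.mono_of_cancel_zero _ ?_
  intro T x hx
  have h1 := epi_whiskerLeft p T
  have h2 : (x ▷ Y) ≫ ε_ Y (Yᘁ) = 0 := by
    rw [← cancel_epi (T ◁ p), comp_zero, whisker_exchange_assoc, ← rightAdjointMate_comp_evaluation,
      ← comp_whiskerRight_assoc, hx, MonoidalPreadditive.zero_whiskerRight, zero_comp]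
  have h3 := tensorRightHomEquiv_whiskerRight_comp_evaluation x
  rw [h2] at h3
  have h4 : x ≫ (λ_ (Yᘁ)).inv = 0 := by
    rw [← h3]
    simp [tensorRightHomEquiv]
  rw [← cancel_mono (λ_ (Yᘁ)).inv, h4, zero_comp]

/-- Naturality of the partial trace in the first variable. -/
lemma partial_left {A B : C} (i : A ⟶ B) (a : A ⟶ A) (b : B ⟶ B) (h : i ≫ b = a ≫ i) :
    (i ▷ Bᘁ) ≫ (b ▷ Bᘁ) ≫ (β_ B (Bᘁ)).hom ≫ ε_ B (Bᘁ) =
      (A ◁ iᘁ) ≫ (a ▷ Aᘁ) ≫ (β_ A (Aᘁ)).hom ≫ ε_ A (Aᘁ) := by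
  calc (i ▷ Bᘁ) ≫ (b ▷ Bᘁ) ≫ (β_ B (Bᘁ)).hom ≫ ε_ B (Bᘁ)
      = (a ▷ Bᘁ) ≫ (i ▷ Bᘁ) ≫ (β_ B (Bᘁ)).hom ≫ ε_ B (Bᘁ) := by
        rw [← comp_whiskerRight_assoc, h, comp_whiskerRight_assoc]
    _ = (a ▷ Bᘁ) ≫ (β_ A (Bᘁ)).hom ≫ (Bᘁ ◁ i) ≫ ε_ B (Bᘁ) := by
        rw [BraidedCategory.braiding_naturality_left_assoc]
    _ = (a ▷ Bᘁ) ≫ (β_ A (Bᘁ)).hom ≫ (iᘁ ▷ A) ≫ ε_ A (Aᘁ) := by
        rw [rightAdjointMate_comp_evaluation]
    _ = (a ▷ Bᘁ) ≫ (A ◁ iᘁ) ≫ (β_ A (Aᘁ)).hom ≫ ε_ A (Aᘁ) := by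
        rw [BraidedCategory.braiding_naturality_right_assoc]
    _ = _ := by rw [← whisker_exchange_assoc]

/-- Additivity of the trace in short exact sequences. -/
theorem tr_add {A B D : C} (i : A ⟶ B) (p : B ⟶ D) [Mono i] [Epi p]
    (hip : ∀ {T : C} (x : T ⟶ B), x ≫ p = 0 → ∃ y : T ⟶ A, y ≫ i = x) (hz : i ≫ p = 0)
    (a : A ⟶ A) (b : B ⟶ B) (d : D ⟶ D) (hab : i ≫ b = a ≫ i) (hbd : p ≫ d = b ≫ p) :
    tr b = tr a + tr d := by
  have hpe := epi_whiskerRight p (Dᘁ)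
  have hmi := mono_whiskerRight' i (Aᘁ)
  have hmp := mono_mate p
  have hmpD := mono_whiskerLeft (pᘁ) D
  obtain ⟨T, π, hπ, x2, hx2⟩ := surjective_up_to_refinements_of_epi (p ▷ Dᘁ) (η_ D (Dᘁ))
  set y := π ≫ η_ B (Bᘁ) - x2 ≫ (B ◁ pᘁ) with hy
  have hy0 : y ≫ (p ▷ Bᘁ) = 0 := by
    rw [hy, Preadditive.sub_comp, Category.assoc, Category.assoc, whisker_exchange,
      ← Category.assoc x2, ← hx2, Category.assoc, ← coevaluation_comp_rightAdjointMate, sub_self]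
  obtain ⟨x1, hx1⟩ : ∃ x1 : T ⟶ A ⊗ Bᘁ, x1 ≫ (i ▷ Bᘁ) = y := by
    have h1 : (tensorRightHomEquiv T B (Bᘁ) B).symm y ≫ p = 0 := by
      apply (tensorRightHomEquiv T B (Bᘁ) D).injective
      rw [tensorRightHomEquiv_naturality, Equiv.apply_symm_apply, hy0]
      simp [tensorRightHomEquiv]
    obtain ⟨z, hz⟩ := hip _ h1
    refine ⟨tensorRightHomEquiv T B (Bᘁ) A z, ?_⟩
    rw [← tensorRightHomEquiv_naturality, hz, Equiv.apply_symm_apply]
  have hsum : π ≫ η_ B (Bᘁ) = x1 ≫ (i ▷ Bᘁ) + x2 ≫ (B ◁ pᘁ) := by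
    rw [hx1, hy, sub_add_cancel]
  have hA : π ≫ η_ A (Aᘁ) = x1 ≫ (A ◁ iᘁ) := by
    rw [← cancel_mono (i ▷ Aᘁ), Category.assoc, ← coevaluation_comp_rightAdjointMate,
      ← Category.assoc, hsum, Preadditive.add_comp, Category.assoc, Category.assoc,
      Category.assoc, ← whiskerLeft_comp, mate_comp, hz, mate_zero, MonoidalPreadditive.whiskerLeft_zero, comp_zero,
      add_zero, whisker_exchange]
  rw [← cancel_epi π]
  unfold tr
  rw [← Category.assoc, hsum, Preadditive.add_comp, Category.assoc, Category.assoc,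
    partial_left i a b hab, Preadditive.comp_add, ← Category.assoc π, hA, ← Category.assoc π, hx2,
    Category.assoc, Category.assoc]
  congr 2
  exact (partial_left p b d hbd).symm

end Pool.Agent.Q227.AB
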