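import Pool.Agent.Q227.AB.Trace

/-!
# The unit object is simple
-/

open CategoryTheory MonoidalCategory Limits

universe v u w

namespace Pool.Agent.Q227.AB

variable {C : Type u} [Category.{v} C] [MonoidalCategory C] [SymmetricCategory C]
  [RightRigidCategory C] [Abelian C] [MonoidalPreadditive C]

lemma isZero_tensor_left {X : C} (h : IsZero X) (W : C) : IsZero (X ⊗ W) := by
  rw [IsZero.iff_id_eq_zero] at h ⊢
  rw [← id_whiskerRight, h, MonoidalPreadditive.zero_whiskerRight]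

lemma isZero_tensor_right {X : C} (h : IsZero X) (W : C) : IsZero (W ⊗ X) :=
  (isZero_tensor_left h W).of_iso (β_ W X)

lemma lift_of_mono {A B : C} (i : A ⟶ B) [Mono i] {T : C} (x : T ⟶ B)
    (hx : x ≫ cokernel.π i = 0) : ∃ y : T ⟶ A, y ≫ i = x :=
  ⟨Abelian.monoLift i x hx, Abelian.monoLift_comp i x hx⟩

lemma isZero_unit_step {U V : C} (i : U ⟶ 𝟙_ C) [Mono i] (π : 𝟙_ C ⟶ V) [Epi π]
    (h : i ≫ π = 0) : IsZero (U ⊗ V) := by
  have h1 : (U ◁ π) ≫ (i ▷ V) = 0 := by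
    rw [whisker_exchange, whiskerRight_id, id_whiskerLeft]
    simp only [Category.assoc, unitors_equal, Iso.inv_hom_id_assoc]
    rw [← Category.assoc i, h, zero_comp, comp_zero]
  have h2 := epi_whiskerLeft π U
  have h3 : i ▷ V = 0 := by
    rw [← cancel_epi (U ◁ π), h1, comp_zero]
  have h4 := mono_whiskerRight' i V
  rw [IsZero.iff_id_eq_zero, ← cancel_mono (i ▷ V), h3, comp_zero, zero_comp]

lemma isZero_dual_step {U V : C} (h : IsZero (U ⊗ V)) : IsZero (U ⊗ Vᘁ) := by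
  have h1 : IsZero (U ⊗ ((Vᘁ ⊗ V) ⊗ Vᘁ)) := by
    have h2 : IsZero ((U ⊗ V) ⊗ (Vᘁ ⊗ Vᘁ)) := isZero_tensor_left h _
    exact h2.of_iso (whiskerLeftIso U (whiskerRightIso (β_ (Vᘁ) V) (Vᘁ)) ≪≫
      whiskerLeftIso U (α_ V (Vᘁ) (Vᘁ)) ≪≫ (α_ U V (Vᘁ ⊗ Vᘁ)).symm)
  have h3 : 𝟙 (Vᘁ) = (ρ_ (Vᘁ)).inv ≫ (Vᘁ ◁ η_ V (Vᘁ)) ≫ (α_ _ _ _).inv ≫
      (ε_ V (Vᘁ) ▷ Vᘁ) ≫ (λ_ (Vᘁ)).hom := by
    rw [ExactPairing.coevaluation_evaluation_assoc]
    simp
  rw [IsZero.iff_id_eq_zero, ← whiskerLeft_id, h3, whiskerLeft_comp, whiskerLeft_comp,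
    whiskerLeft_comp, h1.eq_zero_of_tgt (U ◁ (α_ (Vᘁ) V (Vᘁ)).inv)]
  simp

/-- A quotient of the unit object splits off. -/
lemma split_quotient {U V : C} (i : U ⟶ 𝟙_ C) [Mono i] (π : 𝟙_ C ⟶ V) [Epi π]
    (h : i ≫ π = 0) (hip : ∀ {T : C} (x : T ⟶ 𝟙_ C), x ≫ π = 0 → ∃ y : T ⟶ U, y ≫ i = x) :
    ∃ s : V ⟶ 𝟙_ C, s ≫ π = 𝟙 V := by
  have hUV : IsZero (U ⊗ Vᘁ) := isZero_dual_step (isZero_unit_step i π h)
  have hepi := epi_whiskerRight π (Vᘁ)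
  have hmono : Mono (π ▷ Vᘁ) := by
    refine Preadditive.mono_of_cancel_zero _ ?_
    intro T x hx
    have h1 : (tensorRightHomEquiv T V (Vᘁ) (𝟙_ C)).symm x ≫ π = 0 := by
      apply (tensorRightHomEquiv T V (Vᘁ) V).injective
      rw [tensorRightHomEquiv_naturality, Equiv.apply_symm_apply, hx]
      simp [tensorRightHomEquiv]
    obtain ⟨y, hy⟩ := hip _ h1
    have h2 : x = tensorRightHomEquiv T V (Vᘁ) U y ≫ (i ▷ Vᘁ) := by
      rw [← tensorRightHomEquiv_naturality, hy, Equiv.apply_symm_apply]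
    rw [h2, hUV.eq_zero_of_tgt (tensorRightHomEquiv T V (Vᘁ) U y), zero_comp]
  have hiso : IsIso (π ▷ Vᘁ) := isIso_of_mono_of_epi _
  set e := tensorRightHomEquiv (𝟙_ C) V (Vᘁ) V (λ_ V).hom with he
  refine ⟨(λ_ V).inv ≫ (tensorRightHomEquiv (𝟙_ C) V (Vᘁ) (𝟙_ C)).symm (e ≫ inv (π ▷ Vᘁ)), ?_⟩
  have hs' : (tensorRightHomEquiv (𝟙_ C) V (Vᘁ) (𝟙_ C)).symm (e ≫ inv (π ▷ Vᘁ)) ≫ π =
      (λ_ V).hom := by
    apply (tensorRightHomEquiv (𝟙_ C) V (Vᘁ) V).injective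
    rw [tensorRightHomEquiv_naturality, Equiv.apply_symm_apply, Category.assoc,
      IsIso.inv_hom_id, Category.comp_id]
  rw [Category.assoc, hs', Iso.inv_hom_id]

theorem mono_of_ne_zero (hE : ∀ f : 𝟙_ C ⟶ 𝟙_ C, f ≫ f = f → f = 0 ∨ f = 𝟙 _) {M : C}
    (f : 𝟙_ C ⟶ M) (hf : f ≠ 0) : Mono f := by
  obtain ⟨s, hs⟩ := split_quotient (kernel.ι f) (cokernel.π (kernel.ι f))
    (cokernel.condition _) (lift_of_mono _)
  rcases hE (cokernel.π (kernel.ι f) ≫ s)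
    (by rw [Category.assoc, ← Category.assoc s, hs, Category.id_comp]) with h | h
  · exfalso
    have hπ : cokernel.π (kernel.ι f) = 0 := by
      rw [← Category.comp_id (cokernel.π (kernel.ι f)), ← hs, ← Category.assoc, h, zero_comp]
    have : Epi (kernel.ι f) := Abelian.epi_of_cokernel_π_eq_zero _ hπ
    apply hf
    rw [← cancel_epi (kernel.ι f), kernel.condition, comp_zero]
  · have hi : kernel.ι f = 0 := by
      rw [← Category.comp_id (kernel.ι f), ← h, ← Category.assoc, cokernel.condition, zero_comp]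
    exact Abelian.mono_of_kernel_ι_eq_zero _ hi

end Pool.Agent.Q227.AB
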